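import Mathlib
import Pool.Agent.H715R2.Determine

/-!
# Local determination by `d² - d` small values, in two-point form
-/

set_option autoImplicit false

open Filter Topology Matrix

namespace Pool.Agent.TH314.CSD

open H715R2

variable {d : ℕ}

/-- the determinant of `1 + X` -/
noncomputable def detF (X : Fin d → Fin d → ℝ) : ℝ := (1 + Matrix.of X).det

lemma contDiff_detF : ContDiff ℝ ⊤ (detF : (Fin d → Fin d → ℝ) → ℝ) := by
  classical
  have h1 : (detF : (Fin d → Fin d → ℝ) → ℝ) = fun X => ∑ σ : Equiv.Perm (Fin d),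
      ((Equiv.Perm.sign σ : ℤ) : ℝ) * ∏ i, ((1 : Matrix (Fin d) (Fin d) ℝ) (σ i) i + X (σ i) i) := by
    funext X
    rw [detF, Matrix.det_apply']
    rfl
  rw [h1]
  refine ContDiff.sum fun σ _ => contDiff_const.mul ?_
  refine contDiff_prod fun i _ => contDiff_const.add ?_
  exact (contDiff_apply_apply ℝ ℝ (σ i) i)

lemma detF_zero : detF (0 : Fin d → Fin d → ℝ) = 1 := by
  rw [detF]
  have : (Matrix.of (0 : Fin d → Fin d → ℝ)) = 0 := rfl
  rw [this, add_zero, det_one]

/-- the derivative of the determinant vanishes in directions without diagonal entries -/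
lemma fderiv_detF (X : Fin d → Fin d → ℝ) (hX : ∀ i, X i i = 0) :
    fderiv ℝ (detF : (Fin d → Fin d → ℝ) → ℝ) 0 X = 0 := by
  classical
  have hd : DifferentiableAt ℝ (detF : (Fin d → Fin d → ℝ) → ℝ) 0 :=
    (contDiff_detF.differentiable (by simp)).differentiableAt
  -- along the line
  set P : Polynomial ℝ := det (1 + (Polynomial.X : Polynomial ℝ) • (Matrix.of X).map Polynomial.C)
    with hP
  have h1 : ∀ t : ℝ, detF (t • X) = P.eval t := by
    intro t
    rw [hP, detF, ← Polynomial.coe_evalRingHom, RingHom.map_det]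
    congr 1
    ext i j
    simp only [Matrix.add_apply, Matrix.of_apply, Pi.smul_apply, smul_eq_mul,
      RingHom.mapMatrix_apply, Matrix.map_apply, Matrix.smul_apply, Polynomial.coe_evalRingHom,
      Polynomial.eval_add, Polynomial.eval_mul, Polynomial.eval_X, Polynomial.eval_C]
    congr 1
    by_cases hij : i = j
    · rw [hij]; simp
    · rw [Matrix.one_apply_ne hij, Matrix.one_apply_ne hij]; simp
  have h2 : HasDerivAt (fun t : ℝ => P.eval t) (P.derivative.eval 0) 0 := P.hasDerivAt 0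
  have h3 : P.derivative.eval 0 = 0 := by
    rw [hP, Matrix.derivative_det_one_add_X_smul]
    exact Finset.sum_eq_zero fun i _ => hX i
  rw [h3] at h2
  have h4 : HasDerivAt (fun t : ℝ => detF (t • X)) (fderiv ℝ detF 0 X) 0 := by
    have h5 : HasFDerivAt (detF : (Fin d → Fin d → ℝ) → ℝ) (fderiv ℝ detF 0) ((0 : ℝ) • X) := by
      rw [zero_smul]; exact hd.hasFDerivAt
    have h6 : HasDerivAt (fun t : ℝ => t • X) X 0 := by
      have := (hasDerivAt_id (0 : ℝ)).smul_const X
      simpa using this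
    exact h5.comp_hasDerivAt 0 h6
  have h5 : (fun t : ℝ => detF (t • X)) = fun t : ℝ => P.eval t := funext h1
  rw [h5] at h4
  exact h4.unique h2

lemma hasStrictFDerivAt_Gz (z : Fin d → ℝ) : HasStrictFDerivAt (Gz z) (∑ j, ell z j) 0 := by
  classical
  have h1 := HasStrictFDerivAt.finsetProd (u := Finset.univ) (x := (0 : Fin d → Fin d → ℝ))
    (g := fun j X => 1 + ell z j X) (g' := fun j => ell z j)
    (fun j _ => ((ell z j).hasStrictFDerivAt).const_add 1)
  have h2 : (∑ i ∈ Finset.univ, (∏ j ∈ Finset.univ.erase i, (1 + ell z j 0)) • ell z i)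
      = ∑ j, ell z j := by
    refine Finset.sum_congr rfl fun i _ => ?_
    simp
  rw [h2] at h1
  exact h1

lemma Gz_zero (z : Fin d → ℝ) : Gz z 0 = 1 := by simp [Gz]

lemma hasStrictFDerivAt_quot (z : Fin d → ℝ) :
    HasStrictFDerivAt (fun X => Gz z X * (detF X)⁻¹)
      ((∑ j, ell z j) - fderiv ℝ (detF : (Fin d → Fin d → ℝ) → ℝ) 0) 0 := by
  have h1 := hasStrictFDerivAt_Gz z
  have h2 : HasStrictFDerivAt (detF : (Fin d → Fin d → ℝ) → ℝ) (fderiv ℝ detF 0) 0 :=
    contDiff_detF.contDiffAt.hasStrictFDerivAt (by simp)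
  have h3 : HasStrictDerivAt (fun y : ℝ => y⁻¹) (-((detF (0 : Fin d → Fin d → ℝ)) ^ 2)⁻¹)
      (detF (0 : Fin d → Fin d → ℝ)) := hasStrictDerivAt_inv (by rw [detF_zero]; exact one_ne_zero)
  have h4 := h3.comp_hasStrictFDerivAt (0 : Fin d → Fin d → ℝ) h2
  have h5 := h1.mul h4
  refine h5.congr_fderiv ?_
  simp only [Function.comp, detF_zero, Gz_zero]
  ext X
  simp
  ring

/-- two-point local injectivity from a strict derivative -/
lemma strict_inj {E F : Type*} [NormedAddCommGroup E] [NormedSpace ℝ E] [NormedAddCommGroup F]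
    [NormedSpace ℝ F] {f : E → F} {f' : E →L[ℝ] F} {x₀ : E} (hf : HasStrictFDerivAt f f' x₀)
    {C : NNReal} (hC : AntilipschitzWith C f') :
    ∃ U ∈ 𝓝 x₀, ∀ x ∈ U, ∀ y ∈ U, f x = f y → x = y := by
  have h1 := hf.isLittleO
  have hc : (0 : ℝ) < 1 / (2 * (C + 1)) := by positivity
  have h2 := h1.def hc
  rw [nhds_prod_eq] at h2
  obtain ⟨U, hU, hU2⟩ := Filter.mem_prod_self_iff.1 h2
  refine ⟨U, hU, fun x hx y hy hxy => ?_⟩
  have h3 : ‖f x - f y - f' (x - y)‖ ≤ 1 / (2 * (C + 1)) * ‖x - y‖ := hU2 (Set.mk_mem_prod hx hy)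
  simp only [hxy, sub_self, zero_sub, norm_neg] at h3
  have h4 : ‖x - y‖ ≤ C * ‖f' (x - y)‖ := by
    have := hC.le_mul_dist x y
    rw [dist_eq_norm, dist_eq_norm, ← map_sub] at this
    exact this
  have h5 : (C : ℝ) * ‖f' (x - y)‖ ≤ C * (1 / (2 * (C + 1)) * ‖x - y‖) :=
    mul_le_mul_of_nonneg_left h3 C.2
  have h6 : (C : ℝ) * (1 / (2 * (C + 1))) ≤ 1 / 2 := by
    rw [mul_one_div, div_le_div_iff₀ (by positivity) (by norm_num)]
    nlinarith [C.2]
  have h7 : ‖x - y‖ ≤ 1 / 2 * ‖x - y‖ := by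
    have h8 := mul_le_mul_of_nonneg_right h6 (norm_nonneg (x - y))
    nlinarith
  have h8 : ‖x - y‖ = 0 := by
    have := norm_nonneg (x - y)
    linarith
  exact sub_eq_zero.1 (norm_eq_zero.1 h8)

/-- **Strict local determination.** The values at `d² - d` integer vectors and the determinant
determine a matrix near `h₀` up to left multiplication by a diagonal matrix near `1`. -/
theorem strict_det (hd : 0 < d) {h₀ : Matrix (Fin d) (Fin d) ℝ} {c r : ℝ} {S : Set ℝ} (hc0 : 0 < c)
    (hdet : h₀.det ≠ 0) (hr : 0 < r)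
    (hvec : ∀ b : Fin d → ℝ, (∀ i, 0 < b i) → ∏ i, b i = 1 → ∃ m : Fin d → ℤ,
      (∀ i, b i * |(h₀ *ᵥ iR m) i| < r) ∧ (∀ i, c ≤ b i * |(h₀ *ᵥ iR m) i|) ∧
      FF h₀ (iR m) ∈ S) :
    ∃ m : Fin d × Fin d → (Fin d → ℤ), (∀ p, m p ≠ 0) ∧ (∀ p, FF h₀ (iR (m p)) ∈ S) ∧
      ∃ W ∈ 𝓝 h₀, ∀ h ∈ W, ∀ h' ∈ W, |h.det| = |h'.det| →
        (∀ p : Fin d × Fin d, p.1 ≠ p.2 → FF h (iR (m p)) = FF h' (iR (m p))) →
        ∃ a : Fin d → ℝ, (∀ i, 1 / 2 < a i) ∧ (∀ i, a i < 2) ∧ h' = diagonal a * h := by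
  classical
  set ρ : ℝ := r / c + 1 with hρ
  have hrc : 0 < r / c := div_pos hr hc0
  have hρ1 : 1 ≤ ρ := by linarith
  have hρ0 : 0 < ρ := by linarith
  set τ : ℝ := 2 * (d : ℝ) ^ 2 * ρ ^ 2 + 1 with hτ
  have hτ1 : 1 ≤ τ := by
    have : 0 ≤ 2 * (d : ℝ) ^ 2 * ρ ^ 2 := by positivity
    linarith
  have hτ0 : 0 < τ := by linarith
  -- the diagonal matrices
  set b : Fin d × Fin d → Fin d → ℝ := fun p j =>
    if p.1 = p.2 then 1 else if j = p.1 then τ else if j = p.2 then τ⁻¹ else 1 with hb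
  have hb0 : ∀ p j, 0 < b p j := by
    intro p j
    simp only [hb]
    split_ifs <;> positivity
  have hb1 : ∀ p, ∏ j, b p j = 1 := by
    intro p
    by_cases hp : p.1 = p.2
    · simp [hb, hp]
    · rw [← Finset.mul_prod_erase Finset.univ _ (Finset.mem_univ p.1),
        ← Finset.mul_prod_erase (Finset.univ.erase p.1) _
          (Finset.mem_erase.2 ⟨fun h => hp h.symm, Finset.mem_univ p.2⟩)]
      have h1 : b p p.1 = τ := by simp [hb, hp]
      have h2 : b p p.2 = τ⁻¹ := by
        simp only [hb]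
        rw [if_neg hp, if_neg (fun h => hp h.symm)]
        simp
      have h3 : ∏ j ∈ (Finset.univ.erase p.1).erase p.2, b p j = 1 := by
        refine Finset.prod_eq_one fun j hj => ?_
        have hj2 := Finset.ne_of_mem_erase hj
        have hj1 := Finset.ne_of_mem_erase (Finset.mem_of_mem_erase hj)
        simp only [hb]
        rw [if_neg hp, if_neg hj1, if_neg hj2]
      rw [h1, h2, h3, mul_one, mul_inv_cancel₀ hτ0.ne']
  choose m hm1 hm2 hm3 using fun p => hvec (b p) (hb0 p) (hb1 p)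
  set Z : Fin d × Fin d → Fin d → ℝ := fun p => h₀ *ᵥ iR (m p) with hZ
  have hZne : ∀ p j, Z p j ≠ 0 := by
    intro p j h0
    have := hm2 p j
    simp only [hZ] at h0
    rw [h0, abs_zero, mul_zero] at this
    exact absurd this (not_le.2 hc0)
  have hmne : ∀ p, m p ≠ 0 := by
    intro p h0
    apply hZne p ⟨0, hd⟩
    simp only [hZ, h0]
    have h1 : iR (0 : Fin d → ℤ) = 0 := by funext i; simp [iR]
    rw [h1, mulVec_zero]
    rfl
  refine ⟨m, hmne, hm3, ?_⟩
  -- ratios
  have hratio : ∀ p j l, |Z p l / Z p j| ≤ r / c * (b p j / b p l) := by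
    intro p j l
    have h1 := hm1 p l
    have h2 := hm2 p j
    have h3 : |Z p l| ≤ r / b p l := by
      rw [le_div_iff₀ (hb0 p l), mul_comm]; exact h1.le
    have h4 : c / b p j ≤ |Z p j| := by
      rw [div_le_iff₀ (hb0 p j), mul_comm]; exact h2
    have h5 : 0 < c / b p j := div_pos hc0 (hb0 p j)
    rw [abs_div]
    calc |Z p l| / |Z p j| ≤ (r / b p l) / (c / b p j) :=
          div_le_div₀ (div_nonneg hr.le (hb0 p l).le) h3 h5 h4
      _ = r / c * (b p j / b p l) := by
          have := (hb0 p l).ne'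
          have := (hb0 p j).ne'
          field_simp
  have hratio2 : ∀ p j l, (b p j / b p l) / (r / c) ≤ |Z p l / Z p j| := by
    intro p j l
    have h1 := hratio p l j
    have h2 : 0 < |Z p j / Z p l| := abs_pos.2 (div_ne_zero (hZne _ _) (hZne _ _))
    have h3 : |Z p l / Z p j| = |Z p j / Z p l|⁻¹ := by rw [← abs_inv, inv_div]
    rw [h3]
    have h4 : (b p j / b p l) / (r / c) = (r / c * (b p l / b p j))⁻¹ := by
      rw [mul_inv, inv_div (b p l), div_eq_mul_inv _ (r / c), mul_comm]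
    rw [h4]
    exact inv_anti₀ h2 h1
  have hinj : ∀ X : Fin d → Fin d → ℝ, (∀ i, X i i = 0) →
      (∀ p : Fin d × Fin d, p.1 ≠ p.2 → ∑ j, ell (Z p) j X = 0) → X = 0 := by
    intro X hX0 hX
    refine inj_key Z 0 ρ τ hρ1 hτ1 (by rw [hτ]; linarith) ?_ ?_ ?_ X hX0 ?_
    · intro p hp
      have h1 := hratio2 p p.1 p.2
      have h2 : b p p.1 = τ := by simp [hb, hp]
      have h3 : b p p.2 = τ⁻¹ := by
        simp only [hb]
        rw [if_neg hp, if_neg (fun h => hp h.symm)]
        simp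
      rw [h2, h3, div_inv_eq_mul, ← pow_two] at h1
      refine le_trans ?_ h1
      exact div_le_div_of_nonneg_left (by positivity) hrc (by linarith)
    · intro p q hp hq hpq
      refine (hratio p q.1 q.2).trans ?_
      have h1 : b p q.1 / b p q.2 ≤ τ := by
        have hle : ∀ j, b p j ≤ τ := by
          intro j
          simp only [hb]
          split_ifs
          · exact hτ1
          · exact le_refl _
          · exact (inv_le_one_of_one_le₀ hτ1).trans hτ1
          · exact hτ1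
        by_cases hq2 : q.2 = p.2
        · have hq1 : q.1 ≠ p.1 := fun h => hpq (Prod.ext h hq2)
          have h2 : b p q.1 = 1 := by
            simp only [hb]
            rw [if_neg hp, if_neg hq1, if_neg (fun h => hq (h.trans hq2.symm))]
          have h3 : b p q.2 = τ⁻¹ := by
            rw [hq2]
            simp only [hb]
            rw [if_neg hp, if_neg (fun h => hp h.symm)]
            simp
          rw [h2, h3, one_div, inv_inv]
        · have h3 : 1 ≤ b p q.2 := by
            simp only [hb]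
            rw [if_neg hp]
            split_ifs
            · exact hτ1
            · exact le_refl _
          exact (div_le_self (hb0 _ _).le h3).trans (hle _)
      have h2 : 0 ≤ b p q.1 / b p q.2 := div_nonneg (hb0 _ _).le (hb0 _ _).le
      exact mul_le_mul (by linarith) h1 h2 hρ0.le
    · intro j l
      simp [hρ0.le]
    · intro p hp
      rw [hX p hp]
      symm
      refine Finset.sum_eq_zero fun j _ => ?_
      rw [ell_apply]
      refine Finset.sum_eq_zero fun l _ => ?_
      simp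
  -- the map
  let f : (Fin d → Fin d → ℝ) → (Fin d × Fin d → ℝ) := fun X p =>
    if p.1 = p.2 then X p.1 p.2 else Gz (Z p) X * (detF X)⁻¹
  let f' : (Fin d → Fin d → ℝ) →L[ℝ] (Fin d × Fin d → ℝ) := ContinuousLinearMap.pi fun p =>
    if p.1 = p.2 then ((ContinuousLinearMap.proj (R := ℝ) (φ := fun _ : Fin d => ℝ) p.2).comp
      (ContinuousLinearMap.proj (R := ℝ) (φ := fun _ : Fin d => (Fin d → ℝ)) p.1))
    else (∑ j, ell (Z p) j) - fderiv ℝ detF 0
  have hf : HasStrictFDerivAt f f' 0 := by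
    rw [hasStrictFDerivAt_pi]
    intro p
    by_cases hp : p.1 = p.2
    · simp only [if_pos hp]
      exact ContinuousLinearMap.hasStrictFDerivAt ((ContinuousLinearMap.proj (R := ℝ) (φ := fun _ : Fin d => ℝ) p.2).comp
        (ContinuousLinearMap.proj (R := ℝ) (φ := fun _ : Fin d => (Fin d → ℝ)) p.1))
    · simp only [if_neg hp]
      exact hasStrictFDerivAt_quot (Z p)
  obtain ⟨C, hC⟩ : ∃ C, AntilipschitzWith C f' := by
    obtain ⟨C, -, hC⟩ := (f' : (Fin d → Fin d → ℝ) →ₗ[ℝ] (Fin d × Fin d → ℝ)).exists_antilipschitzWith (by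
      rw [LinearMap.ker_eq_bot']
      intro X hX
      have hXp : ∀ p, f' X p = 0 := fun p => congrFun hX p
      have hdiag : ∀ i, X i i = 0 := by
        intro i
        have := hXp (i, i)
        simpa [f'] using this
      refine hinj X hdiag (fun p hp => ?_)
      have h1 := hXp p
      simp only [f', ContinuousLinearMap.pi_apply, if_neg hp, _root_.sub_apply,
        _root_.sum_apply, fderiv_detF X hdiag, sub_zero] at h1
      exact h1)
    exact ⟨C, hC⟩
  obtain ⟨U, hU, hUinj⟩ := strict_inj hf hC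
  -- pull back
  have hu : IsUnit h₀.det := isUnit_iff_ne_zero.2 hdet
  have hqc : Continuous (fun h : Matrix (Fin d) (Fin d) ℝ => h * h₀⁻¹) :=
    continuous_id.matrix_mul continuous_const
  have hq1 : h₀ * h₀⁻¹ = 1 := Matrix.mul_nonsing_inv _ hu
  have hqent : ∀ j l, Tendsto (fun h : Matrix (Fin d) (Fin d) ℝ => (h * h₀⁻¹) j l) (𝓝 h₀)
      (𝓝 ((1 : Matrix (Fin d) (Fin d) ℝ) j l)) := by
    intro j l
    have h1 := ((continuous_apply_apply j l).comp hqc).tendsto h₀
    have h2 : (h₀ * h₀⁻¹) j l = (1 : Matrix (Fin d) (Fin d) ℝ) j l := by rw [hq1]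
    rw [← h2]
    exact h1
  have hpos : ∀ᶠ h in 𝓝 h₀, ∀ j, 3 / 4 < (h * h₀⁻¹) j j ∧ (h * h₀⁻¹) j j < 5 / 4 := by
    refine Filter.eventually_all.2 fun j => ?_
    have h1 := hqent j j
    rw [Matrix.one_apply_eq] at h1
    exact (h1.eventually (lt_mem_nhds (by norm_num))).and
      (h1.eventually (gt_mem_nhds (by norm_num)))
  have hoff : Tendsto (fun h : Matrix (Fin d) (Fin d) ℝ => offd (h * h₀⁻¹)) (𝓝 h₀) (𝓝 0) := by
    rw [tendsto_pi_nhds]
    intro j
    rw [tendsto_pi_nhds]
    intro l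
    by_cases hjl : j = l
    · simp only [offd, if_pos hjl]
      exact tendsto_const_nhds
    · simp only [offd, if_neg hjl]
      have h1 := (hqent j l).div (hqent j j) (by rw [Matrix.one_apply_eq]; exact one_ne_zero)
      rw [Matrix.one_apply_ne hjl, zero_div] at h1
      exact h1
  have hdetc : ∀ᶠ h in 𝓝 h₀, 0 < (h * h₀⁻¹).det := by
    have h1 := (continuous_det'.comp hqc).tendsto h₀
    simp only [Function.comp, hq1, det_one] at h1
    exact h1.eventually (lt_mem_nhds one_pos)
  refine ⟨{h | offd (h * h₀⁻¹) ∈ U ∧ (∀ j, 3 / 4 < (h * h₀⁻¹) j j ∧ (h * h₀⁻¹) j j < 5 / 4) ∧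
    0 < (h * h₀⁻¹).det}, ?_, ?_⟩
  · exact (hoff.eventually hU).and (hpos.and hdetc)
  rintro h ⟨hhU, hh2, hh3⟩ h' ⟨hhU', hh2', hh3'⟩ hdd heq
  have hmulb : ∀ h : Matrix (Fin d) (Fin d) ℝ, (h * h₀⁻¹) * h₀ = h := fun h => by
    rw [Matrix.mul_assoc, Matrix.nonsing_inv_mul _ hu, Matrix.mul_one]
  -- decomposition
  have hdec : ∀ q : Matrix (Fin d) (Fin d) ℝ, (∀ j, q j j ≠ 0) →
      q = diagonal (fun j => q j j) * (1 + Matrix.of (offd q)) := by
    intro q hq
    ext j l
    rw [diagonal_mul, Matrix.add_apply, Matrix.of_apply, offd]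
    by_cases hjl : j = l
    · rw [if_pos hjl, hjl, Matrix.one_apply_eq]; ring
    · rw [if_neg hjl, Matrix.one_apply_ne hjl, zero_add, mul_div_cancel₀ _ (hq j)]
  have hdetq : ∀ q : Matrix (Fin d) (Fin d) ℝ, (∀ j, q j j ≠ 0) →
      q.det = (∏ j, q j j) * detF (offd q) := by
    intro q hq
    conv_lhs => rw [hdec q hq]
    rw [det_mul, det_diagonal, detF]
  have hval : ∀ (q : Matrix (Fin d) (Fin d) ℝ), (∀ j, q j j ≠ 0) → ∀ p,
      FF (q * h₀) (iR (m p)) = (∏ j, q j j) * (∏ j, Z p j) * Gz (Z p) (offd q) := by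
    intro q hq p
    rw [FF_mul, FF_eq, prod_eq_Gz q hq _ (hZne p)]
  set q := h * h₀⁻¹ with hq
  set q' := h' * h₀⁻¹ with hq'
  have hqj : ∀ j, q j j ≠ 0 := fun j => by
    have := (hh2 j).1
    intro h0
    rw [h0] at this
    norm_num at this
  have hqj' : ∀ j, q' j j ≠ 0 := fun j => by
    have := (hh2' j).1
    intro h0
    rw [h0] at this
    norm_num at this
  have hdetqq : q.det = q'.det := by
    have h1 : |q.det| = |q'.det| := by
      rw [hq, hq', det_mul, det_mul, abs_mul, abs_mul, hdd]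
    rwa [abs_of_pos hh3, abs_of_pos hh3'] at h1
  have hX : offd q = offd q' := by
    refine hUinj _ hhU _ hhU' ?_
    funext p
    simp only [f]
    by_cases hp : p.1 = p.2
    · rw [if_pos hp, if_pos hp, offd, offd, if_pos hp, if_pos hp]
    · rw [if_neg hp, if_neg hp]
      have h1 := heq p hp
      rw [← hmulb h, ← hmulb h', ← hq, ← hq', hval q hqj, hval q' hqj'] at h1
      have hZp : ∏ j, Z p j ≠ 0 := Finset.prod_ne_zero_iff.2 fun j _ => hZne p j
      have h2 : (∏ j, q j j) * Gz (Z p) (offd q) = (∏ j, q' j j) * Gz (Z p) (offd q') := by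
        have h3 : (∏ j, Z p j) * ((∏ j, q j j) * Gz (Z p) (offd q)) =
            (∏ j, Z p j) * ((∏ j, q' j j) * Gz (Z p) (offd q')) := by linarith
        exact mul_left_cancel₀ hZp h3
      have h3 : (∏ j, q j j) * detF (offd q) = (∏ j, q' j j) * detF (offd q') := by
        rw [← hdetq q hqj, ← hdetq q' hqj', hdetqq]
      have hP : ∏ j, q j j ≠ 0 := Finset.prod_ne_zero_iff.2 fun j _ => hqj j
      have hP' : ∏ j, q' j j ≠ 0 := Finset.prod_ne_zero_iff.2 fun j _ => hqj' j
      have hD : detF (offd q) ≠ 0 := by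
        intro h0
        have h4 := hdetq q hqj
        rw [h0, mul_zero] at h4
        exact hh3.ne' h4
      have hD' : detF (offd q') ≠ 0 := by
        intro h0
        have h4 := hdetq q' hqj'
        rw [h0, mul_zero] at h4
        exact hh3'.ne' h4
      rw [← div_eq_mul_inv, ← div_eq_mul_inv, div_eq_div_iff hD hD']
      have h5 : (∏ j, q j j) * (∏ j, q' j j) * (Gz (Z p) (offd q) * detF (offd q')) =
          (∏ j, q j j) * (∏ j, q' j j) * (Gz (Z p) (offd q') * detF (offd q)) := by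
        calc (∏ j, q j j) * (∏ j, q' j j) * (Gz (Z p) (offd q) * detF (offd q'))
            = ((∏ j, q j j) * Gz (Z p) (offd q)) * ((∏ j, q' j j) * detF (offd q')) := by ring
          _ = ((∏ j, q' j j) * Gz (Z p) (offd q')) * ((∏ j, q j j) * detF (offd q)) := by
              rw [h2, h3]
          _ = _ := by ring
      exact mul_left_cancel₀ (mul_ne_zero hP hP') h5
  have hqq : q' = diagonal (fun j => q' j j / q j j) * q := by
    ext j l
    rw [diagonal_mul]
    by_cases hjl : j = l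
    · rw [hjl, div_mul_cancel₀ _ (hqj l)]
    · have h1 := congrFun (congrFun hX j) l
      rw [offd, offd, if_neg hjl, if_neg hjl, div_eq_div_iff (hqj j) (hqj' j)] at h1
      have h2 := hqj j
      field_simp
      linarith
  refine ⟨fun j => q' j j / q j j, fun j => ?_, fun j => ?_, ?_⟩
  · have h1 := hh2 j
    have h2 := hh2' j
    rw [lt_div_iff₀ (by linarith)]
    linarith
  · have h1 := hh2 j
    have h2 := hh2' j
    rw [div_lt_iff₀ (by linarith)]
    linarith
  · rw [← hmulb h', ← hmulb h, ← hq', ← hq, ← Matrix.mul_assoc, ← hqq]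

end Pool.Agent.TH314.CSD
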