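import Mathlib
import Pool.Agent.TH314.CSD.StrictDet
import Pool.Agent.H715R2.MinimalSet

/-!
# Finite covers of compact families by sets with the two-point determination property
-/

set_option autoImplicit false

open Filter Topology Matrix

namespace Pool.Agent.TH314.CSD

open H715R2

variable {d : ℕ}

/-- vectors with value in `S` and all coordinates under control, for every diagonal matrix -/
theorem exists_vec_set (hd : 0 < d) {V ν : ℝ} (hV : 0 < V) (hν : 0 < ν)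
    {Y : Set (Matrix (Fin d) (Fin d) ℝ)} (hYc : IsClosed Y) (hYinv : H715R2.Inv Y)
    (hYdet : ∀ h ∈ Y, |h.det| = V) (hYnu : ∀ h ∈ Y, HasNu h ν) {S : Set ℝ} (hSo : IsOpen S)
    (hS : ∀ h ∈ Y, ∃ m : Fin d → ℤ, m ≠ 0 ∧ FF h (iR m) ∈ S) :
    ∃ r : ℝ, 0 < r ∧ ∀ h ∈ Y,
      ∀ b : Fin d → ℝ, (∀ i, 0 < b i) → ∏ i, b i = 1 → ∃ m : Fin d → ℤ,
        (∀ i, b i * |(h *ᵥ iR m) i| < r) ∧ (∀ i, ν / r ^ (d - 1) ≤ b i * |(h *ᵥ iR m) i|) ∧
        FF h (iR m) ∈ S := by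
  classical
  obtain ⟨R, hR⟩ := exists_bound hd V ν hV hν
  have hcpt : IsCompact ({h : Matrix (Fin d) (Fin d) ℝ | ∀ i j, |h i j| ≤ R} ∩ Y) :=
    (isCompact_box R).inter_right hYc
  obtain ⟨s, hs⟩ := hcpt.elim_finite_subcover
    (fun m : {m : Fin d → ℤ // m ≠ 0} => {h : Matrix (Fin d) (Fin d) ℝ | FF h (iR m.1) ∈ S})
    (fun m => hSo.preimage (continuous_FF (iR m.1)))
    (fun h hh => by
      obtain ⟨m, hm, hmT⟩ := hS h hh.2
      exact Set.mem_iUnion.2 ⟨⟨m, hm⟩, hmT⟩)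
  set B : ℝ := ∑ m ∈ s, ∑ j, |(m.1 j : ℝ)| with hB
  have hB0 : 0 ≤ B := Finset.sum_nonneg fun m _ => Finset.sum_nonneg fun j _ => abs_nonneg _
  set r : ℝ := |R| * B + 1 with hr
  have hr0 : 0 < r := by positivity
  refine ⟨r, hr0, fun h hh b hb0 hb1 => ?_⟩
  have hmemb : diagonal b * h ∈ Y := by
    have := hYinv h hh b 1 hb0 hb1 (by simp)
    rwa [zR_one, Matrix.mul_one] at this
  obtain ⟨γ, hγ, hγR⟩ := hR _ (hYdet _ hmemb) (hYnu _ hmemb)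
  have hmem : diagonal b * h * zR γ ∈ {h : Matrix (Fin d) (Fin d) ℝ | ∀ i j, |h i j| ≤ R} ∩ Y :=
    ⟨hγR, hYinv h hh b γ hb0 hb1 hγ⟩
  obtain ⟨m, hmS, hmT⟩ := Set.mem_iUnion₂.1 (hs hmem)
  have hmT' : FF h (iR (γ *ᵥ m.1)) ∈ S := by
    have h1 : FF (diagonal b * h * zR γ) (iR m.1) ∈ S := hmT
    rwa [FF_orb hb1] at h1
  have hne : γ *ᵥ m.1 ≠ 0 := by
    intro h0
    apply m.2
    have h3 : γ⁻¹ *ᵥ (γ *ᵥ m.1) = 0 := by rw [h0, mulVec_zero]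
    rwa [mulVec_mulVec, Matrix.nonsing_inv_mul _ hγ, one_mulVec] at h3
  have hent : ∀ i, b i * |(h *ᵥ iR (γ *ᵥ m.1)) i| = |((diagonal b * h * zR γ) *ᵥ iR m.1) i| := by
    intro i
    rw [← mulVec_mulVec, zR_mulVec_iR, ← mulVec_mulVec, mulVec_diagonal, abs_mul,
      abs_of_pos (hb0 i)]
  have hlt : ∀ i, b i * |(h *ᵥ iR (γ *ᵥ m.1)) i| < r := by
    intro i
    rw [hent]
    have h1 : |((diagonal b * h * zR γ) *ᵥ iR m.1) i| ≤ ∑ j, |R| * |(m.1 j : ℝ)| := by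
      rw [mulVec, dotProduct]
      refine (Finset.abs_sum_le_sum_abs _ _).trans (Finset.sum_le_sum fun j _ => ?_)
      rw [abs_mul]
      exact mul_le_mul_of_nonneg_right ((hγR i j).trans (le_abs_self R)) (abs_nonneg _)
    have h2 : ∑ j, |(m.1 j : ℝ)| ≤ B :=
      Finset.single_le_sum (f := fun m : {m : Fin d → ℤ // m ≠ 0} => ∑ j, |(m.1 j : ℝ)|)
        (fun m _ => Finset.sum_nonneg fun j _ => abs_nonneg _) hmS
    rw [← Finset.mul_sum] at h1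
    have h3 := mul_le_mul_of_nonneg_left h2 (abs_nonneg R)
    rw [hr]
    linarith
  refine ⟨γ *ᵥ m.1, hlt, ?_, hmT'⟩
  refine lower_bound _ hr0 (fun i => mul_nonneg (hb0 i).le (abs_nonneg _)) hlt ?_
  rw [Finset.prod_mul_distrib, hb1, one_mul, ← Finset.abs_prod, ← FF_eq]
  exact hYnu _ hh _ hne

/-- the two-point determination property -/
def TwoPoint (W : Set (Matrix (Fin d) (Fin d) ℝ)) (m : Fin d × Fin d → (Fin d → ℤ)) : Prop :=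
  ∀ h ∈ W, ∀ h' ∈ W, |h.det| = |h'.det| →
    (∀ p : Fin d × Fin d, p.1 ≠ p.2 → FF h (iR (m p)) = FF h' (iR (m p))) →
    ∃ a : Fin d → ℝ, (∀ i, 1 / 2 < a i) ∧ (∀ i, a i < 2) ∧ h' = diagonal a * h

/-- **A finite cover.** -/
theorem exists_cover (hd : 0 < d) {V ν : ℝ} (hV : 0 < V) (hν : 0 < ν)
    {Y : Set (Matrix (Fin d) (Fin d) ℝ)} (hYc : IsClosed Y) (hYinv : H715R2.Inv Y)
    (hYdet : ∀ h ∈ Y, |h.det| = V) (hYnu : ∀ h ∈ Y, HasNu h ν) {S : Set ℝ} (hSo : IsOpen S)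
    (hS : ∀ h ∈ Y, ∃ m : Fin d → ℤ, m ≠ 0 ∧ FF h (iR m) ∈ S) :
    ∃ (R B : ℝ) (ι : Type) (_ : Fintype ι) (m : ι → Fin d × Fin d → (Fin d → ℤ))
      (W : ι → Set (Matrix (Fin d) (Fin d) ℝ)), 0 < B ∧ (∀ k p, m k p ≠ 0) ∧
      (∀ k p j, |(m k p j : ℝ)| ≤ B) ∧ (∀ k, ∀ h ∈ W k, ∀ p, FF h (iR (m k p)) ∈ S) ∧
      (∀ k, TwoPoint (W k) (m k)) ∧
      ∀ h ∈ Y, ∃ γ : Matrix (Fin d) (Fin d) ℤ, IsUnit γ.det ∧
        (∀ i j, |(h * zR γ) i j| ≤ R) ∧ ∃ k, h * zR γ ∈ W k := by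
  classical
  obtain ⟨r, hr0, hvec⟩ := exists_vec_set hd hV hν hYc hYinv hYdet hYnu hSo hS
  obtain ⟨R, hR⟩ := exists_bound hd V ν hV hν
  set K : Set (Matrix (Fin d) (Fin d) ℝ) := {h | ∀ i j, |h i j| ≤ R} ∩ Y with hK
  have hcpt : IsCompact K := (isCompact_box R).inter_right hYc
  have hloc : ∀ h₀ : K, ∃ m : Fin d × Fin d → (Fin d → ℤ), ∃ W ∈ 𝓝 (h₀ : Matrix (Fin d) (Fin d) ℝ),
      (∀ p, m p ≠ 0) ∧ (∀ h ∈ W, ∀ p, FF h (iR (m p)) ∈ S) ∧ TwoPoint W m := by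
    rintro ⟨h₀, hh₀⟩
    have hdet0 : h₀.det ≠ 0 := by
      intro h0
      have := hYdet _ hh₀.2
      rw [h0, abs_zero] at this
      exact hV.ne this
    obtain ⟨m, hm1, hm2, W, hW, hWt⟩ := strict_det hd (div_pos hν (pow_pos hr0 (d - 1))) hdet0 hr0
      (hvec h₀ hh₀.2)
    have hWS : ∀ᶠ h in 𝓝 h₀, ∀ p, FF h (iR (m p)) ∈ S := by
      refine Filter.eventually_all.2 fun p => ?_
      exact (continuous_FF (iR (m p))).continuousAt.preimage_mem_nhds (hSo.mem_nhds (hm2 p))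
    refine ⟨m, W ∩ {h | ∀ p, FF h (iR (m p)) ∈ S}, Filter.inter_mem hW hWS, hm1,
      fun h hh => hh.2, ?_⟩
    intro h hh h' hh' hdet heq
    exact hWt h hh.1 h' hh'.1 hdet heq
  choose m W hW hm1 hWS hWt using hloc
  obtain ⟨s, hs⟩ := hcpt.elim_nhds_subcover' (fun h hh => W ⟨h, hh⟩) (fun h hh => hW ⟨h, hh⟩)
  -- the index type
  have e : s ≃ Fin s.card := s.equivFin
  set B : ℝ := ∑ k : s, ∑ p, ∑ j, |(m k.1 p j : ℝ)| + 1 with hB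
  have hBle : ∀ (k : s) p j, |(m k.1 p j : ℝ)| ≤ B := by
    intro k p j
    have h1 : |(m k.1 p j : ℝ)| ≤ ∑ j, |(m k.1 p j : ℝ)| :=
      Finset.single_le_sum (f := fun j => |(m k.1 p j : ℝ)|) (fun j _ => abs_nonneg _)
        (Finset.mem_univ j)
    have h2 : ∑ j, |(m k.1 p j : ℝ)| ≤ ∑ p, ∑ j, |(m k.1 p j : ℝ)| :=
      Finset.single_le_sum (f := fun p => ∑ j, |(m k.1 p j : ℝ)|)
        (fun p _ => Finset.sum_nonneg fun j _ => abs_nonneg _) (Finset.mem_univ p)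
    have h3 : ∑ p, ∑ j, |(m k.1 p j : ℝ)| ≤ ∑ k : s, ∑ p, ∑ j, |(m k.1 p j : ℝ)| :=
      Finset.single_le_sum (f := fun k : s => ∑ p, ∑ j, |(m k.1 p j : ℝ)|)
        (fun k _ => Finset.sum_nonneg fun p _ => Finset.sum_nonneg fun j _ => abs_nonneg _)
        (Finset.mem_univ k)
    rw [hB]; linarith
  have hB0 : 0 < B := by
    have : 0 ≤ ∑ k : s, ∑ p, ∑ j, |(m k.1 p j : ℝ)| :=
      Finset.sum_nonneg fun k _ => Finset.sum_nonneg fun p _ => Finset.sum_nonneg fun j _ =>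
        abs_nonneg _
    rw [hB]; linarith
  refine ⟨R, B, Fin s.card, inferInstance, fun k => m (e.symm k).1, fun k => W (e.symm k).1, hB0,
    fun k p => hm1 _ p, fun k p j => hBle _ p j, fun k h hh p => hWS _ h hh p,
    fun k => hWt _, fun h hh => ?_⟩
  obtain ⟨γ, hγ, hγR⟩ := hR h (hYdet h hh) (hYnu h hh)
  have hmem : h * zR γ ∈ K := by
    refine ⟨hγR, ?_⟩
    have h1 := hYinv h hh (fun _ => 1) γ (fun _ => one_pos) (by simp) hγ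
    have h2 : diagonal (fun _ : Fin d => (1 : ℝ)) = 1 := diagonal_one
    rwa [h2, Matrix.one_mul] at h1
  obtain ⟨k, hk⟩ := Set.mem_iUnion.1 (hs hmem)
  obtain ⟨hks, hkW⟩ := Set.mem_iUnion.1 hk
  refine ⟨γ, hγ, hγR, e ⟨k, hks⟩, ?_⟩
  simp only [Equiv.symm_apply_apply]
  exact hkW

end Pool.Agent.TH314.CSD
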