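import Mathlib
import Pool.Agent.H715R2.Periodic

/-!
# Eigenvalues of integer stabilisers of forms without nontrivial zeros
-/

set_option autoImplicit false

open Filter Topology Matrix

namespace Pool.Agent.TH314.CSD

open H715R2

variable {d : ℕ}

/-- a monic rational polynomial which splits over `ℝ` and all of whose roots have minimal
polynomial `f` has degree divisible by the degree of `f` -/
lemma dvd_natDegree (f : Polynomial ℚ) : ∀ (n : ℕ) (P : Polynomial ℚ), P.natDegree = n → P.Monic →
    (P.map (algebraMap ℚ ℝ)).Splits → (∀ r : ℝ, Polynomial.aeval r P = 0 → minpoly ℚ r = f) →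
    f.natDegree ∣ n := by
  intro n
  induction n using Nat.strong_induction_on with
  | _ n ih =>
    intro P hPn hPm hPs hPr
    by_cases hn : n = 0
    · rw [hn]; exact dvd_zero _
    have hdeg : (P.map (algebraMap ℚ ℝ)).degree ≠ 0 := by
      rw [Polynomial.degree_map]
      intro h0
      apply hn
      rw [← hPn]
      exact Polynomial.natDegree_eq_of_degree_eq_some h0
    obtain ⟨r, hr⟩ := hPs.exists_eval_eq_zero hdeg
    have hr' : Polynomial.aeval r P = 0 := by
      rw [Polynomial.aeval_def, ← Polynomial.eval_map]; exact hr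
    have hint : IsIntegral ℚ r := ⟨P, hPm, hr'⟩
    have hf : minpoly ℚ r = f := hPr r hr'
    have hfm : f.Monic := hf ▸ minpoly.monic hint
    have hfd : 0 < f.natDegree := hf ▸ minpoly.natDegree_pos hint
    obtain ⟨P', hP'⟩ : f ∣ P := hf ▸ minpoly.dvd ℚ r hr'
    have hP'm : P'.Monic := hfm.of_mul_monic_left (hP' ▸ hPm)
    have hnat : P.natDegree = f.natDegree + P'.natDegree := by
      rw [hP', hfm.natDegree_mul hP'm]
    have hP's : (P'.map (algebraMap ℚ ℝ)).Splits := by
      refine hPs.of_dvd ?_ ?_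
      · rw [Polynomial.map_ne_zero_iff (algebraMap ℚ ℝ).injective]
        exact hPm.ne_zero
      · rw [hP', Polynomial.map_mul]
        exact Dvd.intro_left _ rfl
    have h1 := ih P'.natDegree (by omega) P' rfl hP'm hP's (fun r' hr' => hPr r' (by
      rw [hP', map_mul, hr', mul_zero]))
    rw [← hPn, hnat]
    exact dvd_add dvd_rfl h1

/-- a polynomial in a stabiliser -/
lemma aeval_stab {g : Matrix (Fin d) (Fin d) ℝ} {A : Matrix (Fin d) (Fin d) ℝ} {c : Fin d → ℝ}
    (h : g * A = diagonal c * g) (p : Polynomial ℚ) :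
    g * Polynomial.aeval A p = diagonal (fun j => Polynomial.aeval (c j) p) * g := by
  classical
  induction p using Polynomial.induction_on' with
  | add p q hp hq =>
    rw [map_add, Matrix.mul_add, hp, hq, ← Matrix.add_mul, diagonal_add]
    congr 2
    funext j
    rw [map_add]
  | monomial n a =>
    have hs : SemiconjBy g A (diagonal c) := h
    have h1 := (hs.pow_right n).eq
    rw [Polynomial.aeval_monomial, ← Algebra.smul_def, Matrix.mul_smul, h1, ← Matrix.smul_mul,
      diagonal_pow, ← diagonal_smul]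
    congr 2
    funext j
    rw [Polynomial.aeval_monomial, Pi.smul_apply, Pi.pow_apply, ← Algebra.smul_def]

/-- **Eigenvalues of a stabiliser.** If `g` has no nontrivial zero coordinate at integer points and
`g δ = diag(c) g` with an integer matrix `δ`, then the number of distinct `c i` divides `d`. -/
theorem card_image_dvd (hd : 0 < d) {g : Matrix (Fin d) (Fin d) ℝ} (hdet : g.det ≠ 0)
    (hnz : ∀ m : Fin d → ℤ, m ≠ 0 → FF g (iR m) ≠ 0) {δ : Matrix (Fin d) (Fin d) ℤ}
    {c : Fin d → ℝ} (hδ : g * zR δ = diagonal c * g) :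
    (Finset.univ.image c).card ∣ d := by
  classical
  set i₀ : Fin d := ⟨0, hd⟩ with hi₀
  set A : Matrix (Fin d) (Fin d) ℚ := δ.map (Int.cast : ℤ → ℚ) with hA
  set φ : Matrix (Fin d) (Fin d) ℚ →ₐ[ℚ] Matrix (Fin d) (Fin d) ℝ :=
    (Algebra.ofId ℚ ℝ).mapMatrix with hφ
  have hφA : φ A = zR δ := by
    ext i j
    simp [hφ, hA, zR]
  have hu : IsUnit g.det := isUnit_iff_ne_zero.2 hdet
  -- the characteristic polynomial
  set P : Polynomial ℚ := A.charpoly with hP
  have hPm : P.Monic := Matrix.charpoly_monic _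
  have hPd : P.natDegree = d := by
    rw [hP, Matrix.charpoly_natDegree_eq_dim, Fintype.card_fin]
  have hPmap : P.map (algebraMap ℚ ℝ) = ∏ i, (Polynomial.X - Polynomial.C (c i)) := by
    have h1 : P.map (algebraMap ℚ ℝ) = (zR δ).charpoly := by
      rw [hP, ← Matrix.charpoly_map]
      congr 1
    have hug : IsUnit g := (Matrix.isUnit_iff_isUnit_det g).2 hu
    obtain ⟨u, hu'⟩ := hug
    have h2 : zR δ = (u : Matrix (Fin d) (Fin d) ℝ)⁻¹ * diagonal c * (u : Matrix (Fin d) (Fin d) ℝ) := by
      rw [Matrix.mul_assoc, hu', ← hδ, ← Matrix.mul_assoc, Matrix.nonsing_inv_mul _ hu,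
        Matrix.one_mul]
    rw [h1, h2, Matrix.charpoly_units_conj', Matrix.charpoly_diagonal]
  have hPs : (P.map (algebraMap ℚ ℝ)).Splits := by
    rw [hPmap]
    exact Polynomial.Splits.prod fun i _ => Polynomial.Splits.X_sub_C _
  have hroot : ∀ r : ℝ, Polynomial.aeval r P = 0 ↔ ∃ i, r = c i := by
    intro r
    rw [Polynomial.aeval_def, ← Polynomial.eval_map, hPmap, Polynomial.eval_prod,
      Finset.prod_eq_zero_iff]
    simp [sub_eq_zero]
  set f : Polynomial ℚ := minpoly ℚ (c i₀) with hf
  have hint : IsIntegral ℚ (c i₀) := ⟨P, hPm, (hroot _).2 ⟨i₀, rfl⟩⟩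
  have hfm : f.Monic := minpoly.monic hint
  have hfi : Irreducible f := minpoly.irreducible hint
  -- all eigenvalues are roots of `f`
  have hall : ∀ j, Polynomial.aeval (c j) f = 0 := by
    have h1 := aeval_stab hδ f
    rw [← hφA, Polynomial.aeval_algHom_apply] at h1
    have h2 : (Polynomial.aeval A f).det = 0 := by
      have h3 := congrArg Matrix.det h1
      rw [det_mul, det_mul, det_diagonal,
        Finset.prod_eq_zero (Finset.mem_univ i₀) (minpoly.aeval ℚ (c i₀)), zero_mul] at h3
      have h4 := (mul_eq_zero.1 h3).resolve_left hdet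
      have h5 : (φ (Polynomial.aeval A f)).det = algebraMap ℚ ℝ (Polynomial.aeval A f).det := by
        rw [RingHom.map_det]
        rfl
      rw [h5] at h4
      exact (map_eq_zero (algebraMap ℚ ℝ)).1 h4
    obtain ⟨w, hw0, hw⟩ := Matrix.exists_mulVec_eq_zero_iff.2 h2
    -- clear denominators
    obtain ⟨b, hb⟩ := IsLocalization.exist_integer_multiples (nonZeroDivisors ℤ)
      (Finset.univ : Finset (Fin d)) w
    choose m hm using fun i => hb i (Finset.mem_univ i)
    have hb0 : ((b : ℤ) : ℝ) ≠ 0 := by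
      exact_mod_cast nonZeroDivisors.ne_zero b.2
    have hmR : ∀ i, (m i : ℝ) = (b : ℤ) * (w i : ℝ) := by
      intro i
      have h3 := hm i
      rw [Algebra.smul_def] at h3
      simp only [eq_intCast] at h3
      exact_mod_cast h3
    have hm0 : m ≠ 0 := by
      intro h0
      apply hw0
      funext i
      have h3 := hmR i
      rw [h0] at h3
      simp only [Pi.zero_apply, Int.cast_zero] at h3
      have h4 := (mul_eq_zero.1 h3.symm).resolve_left hb0
      exact_mod_cast h4
    have hwR : φ (Polynomial.aeval A f) *ᵥ iR m = 0 := by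
      have h3 : φ (Polynomial.aeval A f) *ᵥ (fun i => (w i : ℝ)) = 0 := by
        funext i
        have h4 := congrFun hw i
        simp only [mulVec, dotProduct, Pi.zero_apply] at h4 ⊢
        have h5 : ((∑ j, (Polynomial.aeval A f) i j * w j : ℚ) : ℝ) = 0 := by rw [h4]; simp
        push_cast at h5
        rw [← h5]
        refine Finset.sum_congr rfl fun j _ => ?_
        congr 1
      have h4 : iR m = ((b : ℤ) : ℝ) • (fun i => (w i : ℝ)) := by
        funext i
        exact hmR i
      rw [h4, mulVec_smul, h3, smul_zero]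
    intro j
    have h3 : (g * φ (Polynomial.aeval A f)) *ᵥ iR m = 0 := by
      rw [← mulVec_mulVec, hwR, mulVec_zero]
    rw [h1, ← mulVec_mulVec] at h3
    have h4 := congrFun h3 j
    rw [mulVec_diagonal] at h4
    refine (mul_eq_zero.1 h4).resolve_right ?_
    intro h5
    apply hnz m hm0
    rw [FF_eq]
    exact Finset.prod_eq_zero (Finset.mem_univ j) h5
  have hmin : ∀ j, minpoly ℚ (c j) = f := fun j =>
    (minpoly.eq_of_irreducible_of_monic hfi (hall j) hfm).symm
  have hdvd : f.natDegree ∣ d := by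
    refine dvd_natDegree f d P hPd hPm hPs fun r hr => ?_
    obtain ⟨i, rfl⟩ := (hroot r).1 hr
    exact hmin i
  have hcard : (Finset.univ.image c).card = f.natDegree := by
    have hfP : f ∣ P := minpoly.dvd ℚ _ ((hroot _).2 ⟨i₀, rfl⟩)
    have hfs : (f.map (algebraMap ℚ ℝ)).Splits := by
      refine hPs.of_dvd ?_ ?_
      · rw [Polynomial.map_ne_zero_iff (algebraMap ℚ ℝ).injective]
        exact hPm.ne_zero
      · exact Polynomial.map_dvd _ hfP
    have h1 := Polynomial.card_rootSet_eq_natDegree (K := ℝ) hfi.separable hfs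
    rw [← h1]
    have h2 : (f.rootSet ℝ) = ((Finset.univ.image c : Finset ℝ) : Set ℝ) := by
      ext r
      rw [Polynomial.mem_rootSet]
      simp only [Finset.coe_image, Finset.coe_univ, Set.image_univ, Set.mem_range]
      constructor
      · rintro ⟨-, hr⟩
        obtain ⟨i, hi⟩ := (hroot r).1 (by
          obtain ⟨q, hq⟩ := hfP
          rw [hq, map_mul, hr, zero_mul])
        exact ⟨i, hi.symm⟩
      · rintro ⟨i, rfl⟩
        exact ⟨hfm.ne_zero, hall i⟩
    rw [← Set.toFinset_card, Set.toFinset_congr h2]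
    simp
  rw [hcard]
  exact hdvd

/-- a counterexample has no integer stabiliser with distinct eigenvalues -/
theorem no_injective_stab (hd : 3 ≤ d) {g : Matrix (Fin d) (Fin d) ℝ} (hdet : g.det ≠ 0) {ν : ℝ}
    (hν : 0 < ν) (hnu : HasNu g ν) (hint : ¬ PropInt g) {δ : Matrix (Fin d) (Fin d) ℤ}
    {c : Fin d → ℝ} (hδ : g * zR δ = diagonal c * g) : ¬ Function.Injective c := by
  intro hc
  have hd0 : 0 < d := by omega
  obtain ⟨K, hfin, hK, s, hs, hmem⟩ := exists_alg_row hdet δ c hc hδ ⟨0, hd0⟩
  rcases limit_alg hd hdet (subset_closure (mem_orb_self g)) ⟨0, hd0⟩ s hs K hK hmem with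
    ⟨x, hx, hx0⟩ | hint' | hdense
  · have h1 := hnu x hx
    have h2 : FF g (iR x) = 0 := by
      rw [FF]
      exact Finset.prod_eq_zero (Finset.mem_univ ⟨0, hd0⟩) hx0
    rw [h2, abs_zero] at h1
    exact absurd h1 (not_le.2 hν)
  · exact hint hint'
  · obtain ⟨x, hx, hx2⟩ := dense_ne hd0 hdense 0 ν hν
    rw [sub_zero] at hx2
    exact absurd (hnu x hx) (not_le.2 hx2)

/-- a stabiliser of a counterexample has at most `d / p` distinct eigenvalues, where `p` is the
smallest prime factor of `d` -/
theorem card_image_le (hd : 3 ≤ d) {g : Matrix (Fin d) (Fin d) ℝ} (hdet : g.det ≠ 0) {ν : ℝ}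
    (hν : 0 < ν) (hnu : HasNu g ν) (hint : ¬ PropInt g) {δ : Matrix (Fin d) (Fin d) ℤ}
    {c : Fin d → ℝ} (hδ : g * zR δ = diagonal c * g) :
    (Finset.univ.image c).card ≤ d / d.minFac := by
  classical
  have hd0 : 0 < d := by omega
  have h1 := card_image_dvd hd0 hdet (fun m hm h0 => by
    have h1 := hnu m hm
    rw [h0, abs_zero] at h1
    exact absurd h1 (not_le.2 hν)) hδ
  obtain ⟨k, hk⟩ := h1
  set e := (Finset.univ.image c).card with he
  have hk1 : k ≠ 1 := by
    intro h1
    apply no_injective_stab hd hdet hν hnu hint hδ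
    have h2 : (Finset.univ.image c).card = (Finset.univ : Finset (Fin d)).card := by
      rw [Finset.card_univ, Fintype.card_fin, ← he]
      rw [h1, mul_one] at hk
      exact hk.symm
    have h3 := Finset.card_image_iff.1 h2
    rwa [Finset.coe_univ, Set.injOn_univ] at h3
  have hk2 : d.minFac ≤ k := by
    apply Nat.minFac_le_of_dvd
    · have : k ≠ 0 := by
        rintro rfl
        omega
      omega
    · exact ⟨e, by rw [mul_comm]; exact hk⟩
  rw [Nat.le_div_iff_mul_le (Nat.minFac_pos d)]
  calc e * d.minFac ≤ e * k := Nat.mul_le_mul_left _ hk2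
    _ = d := hk.symm

end Pool.Agent.TH314.CSD
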