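import Mathlib
import Pool.Agent.TH314.CSD.Cover
import Pool.Agent.TH314.CSD.Stab

/-!
# Counting
-/

set_option autoImplicit false

open Filter Topology Matrix

namespace Pool.Agent.TH314.CSD

open H715R2

/-- Counting integer vectors with sum zero and few distinct values. -/
lemma card_few {α : Type*} {e : ℕ} (𝓕 : Finset α) (w : α → Fin (e + 1) → ℤ)
    (hinj : Set.InjOn w 𝓕) (n M : ℕ) (hsum : ∀ u ∈ 𝓕, ∑ i, w u i = 0)
    (hb : ∀ u ∈ 𝓕, ∀ i, i ≠ 0 → |w u i| ≤ n)
    (hM : ∀ u ∈ 𝓕, (Finset.univ.image (w u)).card ≤ M) :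
    𝓕.card ≤ (2 * n + 1) ^ (M - 1) * (e + 1) ^ (e + 1) := by
  classical
  -- a section
  have hsec : ∀ u : α, ∃ σ : Fin (e + 1) → Fin (e + 1), (∀ i, w u (σ i) = w u i) ∧ σ 0 = 0 ∧
      (Finset.univ.image σ).card ≤ (Finset.univ.image (w u)).card := by
    intro u
    let s : ℤ → Fin (e + 1) := fun t => if t = w u 0 then 0 else
      (if h : ∃ j, w u j = t then h.choose else 0)
    refine ⟨fun i => s (w u i), fun i => ?_, ?_, ?_⟩
    · by_cases h0 : w u i = w u 0
      · simp only [s, h0, if_true]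
      · have h1 : ∃ j, w u j = w u i := ⟨i, rfl⟩
        simp only [s, if_neg h0, dif_pos h1]
        exact h1.choose_spec
    · simp [s]
    · have h1 : Finset.univ.image (fun i => s (w u i)) = (Finset.univ.image (w u)).image s := by
        rw [Finset.image_image]; rfl
      rw [h1]
      exact Finset.card_image_le
  choose σ hσ1 hσ2 hσ3 using hsec
  have hcard : Fintype.card (Fin (e + 1) → Fin (e + 1)) = (e + 1) ^ (e + 1) := by
    rw [Fintype.card_fun, Fintype.card_fin]
  rw [← hcard, ← Finset.card_univ]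
  refine Finset.card_le_mul_card_image_of_maps_to (f := σ) (fun u _ => Finset.mem_univ _) _
    (fun τ _ => ?_)
  by_cases hne : (𝓕.filter (fun u => σ u = τ)).Nonempty
  swap
  · rw [Finset.not_nonempty_iff_eq_empty.1 hne]
    simp
  obtain ⟨u₀, hu₀⟩ := hne
  rw [Finset.mem_filter] at hu₀
  set R : Finset (Fin (e + 1)) := (Finset.univ.image τ).erase 0 with hR
  have h0mem : (0 : Fin (e + 1)) ∈ Finset.univ.image τ :=
    Finset.mem_image.2 ⟨0, Finset.mem_univ _, by rw [← hu₀.2]; exact hσ2 u₀⟩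
  have hRcard : R.card ≤ M - 1 := by
    rw [hR, Finset.card_erase_of_mem h0mem]
    have h1 := hσ3 u₀
    rw [hu₀.2] at h1
    have h2 := hM u₀ hu₀.1
    omega
  set T : Finset (R → ℤ) := Fintype.piFinset fun _ => Finset.Icc (-(n : ℤ)) n with hT
  have hTcard : T.card ≤ (2 * n + 1) ^ (M - 1) := by
    rw [hT, Fintype.card_piFinset, Finset.prod_const, Finset.card_univ, Fintype.card_coe,
      Int.card_Icc]
    have h1 : ((n : ℤ) + 1 - -(n : ℤ)).toNat = 2 * n + 1 := by omega
    rw [h1]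
    exact Nat.pow_le_pow_right (by omega) hRcard
  refine le_trans ?_ hTcard
  refine Finset.card_le_card_of_injOn (fun u => fun r : R => w u r.1) ?_ ?_
  · intro u hu
    rw [Finset.mem_coe, Finset.mem_filter] at hu
    rw [Finset.mem_coe, hT, Fintype.mem_piFinset]
    intro r
    rw [Finset.mem_Icc, ← abs_le]
    exact hb u hu.1 r.1 (Finset.ne_of_mem_erase r.2)
  · intro u hu u' hu' heq
    rw [Finset.mem_coe, Finset.mem_filter] at hu hu'
    apply hinj hu.1 hu'.1
    have hR1 : ∀ r, r ∈ R → w u r = w u' r := fun r hr => congrFun heq ⟨r, hr⟩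
    have hτ1 : ∀ i, w u (τ i) = w u i := fun i => by rw [← hu.2]; exact hσ1 u i
    have hτ2 : ∀ i, w u' (τ i) = w u' i := fun i => by rw [← hu'.2]; exact hσ1 u' i
    have hsplit : ∀ u'' ∈ 𝓕, (∀ i, w u'' (τ i) = w u'' i) →
        ((Finset.univ.filter fun i => τ i = 0).card : ℤ) * w u'' 0 +
          ∑ i ∈ Finset.univ.filter (fun i => ¬ τ i = 0), w u'' (τ i) = 0 := by
      intro u'' hu'' hτ''
      rw [← hsum u'' hu'', ← Finset.sum_filter_add_sum_filter_not Finset.univ (fun i => τ i = 0)]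
      congr 1
      · rw [← nsmul_eq_mul, ← Finset.sum_const]
        refine Finset.sum_congr rfl fun i hi => ?_
        rw [Finset.mem_filter] at hi
        rw [← hτ'' i, hi.2]
      · exact Finset.sum_congr rfl fun i _ => hτ'' i
    have h1 := hsplit u hu.1 hτ1
    have h2 := hsplit u' hu'.1 hτ2
    have h3 : ∑ i ∈ Finset.univ.filter (fun i => ¬ τ i = 0), w u (τ i) =
        ∑ i ∈ Finset.univ.filter (fun i => ¬ τ i = 0), w u' (τ i) := by
      refine Finset.sum_congr rfl fun i hi => ?_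
      rw [Finset.mem_filter] at hi
      exact hR1 _ (Finset.mem_erase.2 ⟨hi.2, Finset.mem_image_of_mem _ (Finset.mem_univ i)⟩)
    rw [h3] at h1
    have h4 : ((Finset.univ.filter fun i => τ i = 0).card : ℤ) ≠ 0 := by
      have : 0 < (Finset.univ.filter fun i => τ i = 0).card := by
        rw [Finset.card_pos]
        exact ⟨0, Finset.mem_filter.2 ⟨Finset.mem_univ _, by rw [← hu.2]; exact hσ2 u⟩⟩
      exact_mod_cast this.ne'
    have h5 : w u 0 = w u' 0 := by
      have h6 : ((Finset.univ.filter fun i => τ i = 0).card : ℤ) * w u 0 =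
          ((Finset.univ.filter fun i => τ i = 0).card : ℤ) * w u' 0 := by linarith
      exact mul_left_cancel₀ h4 h6
    funext i
    rw [← hτ1 i, ← hτ2 i]
    by_cases hi : τ i = 0
    · rw [hi]; exact h5
    · exact hR1 _ (Finset.mem_erase.2 ⟨hi, Finset.mem_image_of_mem _ (Finset.mem_univ i)⟩)

/-- the places -/
def plc {e n : ℕ} (u : Fin e → Fin (n + 1)) : Fin (e + 1) → ℤ :=
  Fin.cons (-∑ i, (u i : ℤ)) (fun i => (u i : ℤ))

lemma plc_sum {e n : ℕ} (u : Fin e → Fin (n + 1)) : ∑ i, plc u i = 0 := by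
  rw [plc, Fin.sum_cons]
  simp

lemma plc_inj {e n : ℕ} : Function.Injective (plc : (Fin e → Fin (n + 1)) → Fin (e + 1) → ℤ) := by
  intro u u' h
  funext i
  have h1 := congrFun h i.succ
  simp only [plc, Fin.cons_succ] at h1
  exact Fin.ext (by exact_mod_cast h1)

lemma plc_le {e n : ℕ} (he : 1 ≤ e) (u : Fin e → Fin (n + 1)) (i : Fin (e + 1)) :
    |plc u i| ≤ e * n := by
  have hu : ∀ j, (0 : ℤ) ≤ (u j : ℤ) ∧ (u j : ℤ) ≤ n := fun j => by
    have := (u j).is_lt
    omega
  refine Fin.cases ?_ (fun j => ?_) i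
  · simp only [plc, Fin.cons_zero]
    rw [abs_neg, abs_of_nonneg (Finset.sum_nonneg fun j _ => (hu j).1)]
    calc ∑ j, ((u j : ℕ) : ℤ) ≤ ∑ _j : Fin e, (n : ℤ) := Finset.sum_le_sum fun j _ => (hu j).2
      _ = e * n := by rw [Finset.sum_const, Finset.card_univ, Fintype.card_fin, nsmul_eq_mul]
  · simp only [plc, Fin.cons_succ]
    rw [abs_of_nonneg (hu j).1]
    have h1 : (1 : ℤ) ≤ e := by exact_mod_cast he
    nlinarith [(hu j).2, (hu j).1]

lemma plc_sub_le {e n : ℕ} (u u' : Fin e → Fin (n + 1)) (i : Fin (e + 1)) (hi : i ≠ 0) :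
    |plc u i - plc u' i| ≤ n := by
  obtain ⟨j, rfl⟩ := Fin.exists_succ_eq.2 hi
  simp only [plc, Fin.cons_succ]
  have h1 := (u j).is_lt
  have h2 := (u' j).is_lt
  rw [abs_le]
  constructor <;> omega

/-- the diagonal entries at a place -/
noncomputable def pla {e n : ℕ} (u : Fin e → Fin (n + 1)) (i : Fin (e + 1)) : ℝ :=
  Real.exp (2 * (plc u i : ℝ))

lemma pla_pos {e n : ℕ} (u : Fin e → Fin (n + 1)) (i : Fin (e + 1)) : 0 < pla u i :=
  Real.exp_pos _

lemma pla_prod {e n : ℕ} (u : Fin e → Fin (n + 1)) : ∏ i, pla u i = 1 := by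
  have h1 : (∑ i, (plc u i : ℝ)) = 0 := by exact_mod_cast plc_sum u
  simp only [pla]
  rw [← Real.exp_sum, ← Finset.mul_sum, h1, mul_zero, Real.exp_zero]

/-- the values in `S` at nonzero integer points of norm at most `X` -/
def valSet {d : ℕ} (g : Matrix (Fin d) (Fin d) ℝ) (S : Set ℝ) (X : ℝ) : Set ℝ :=
  {t | ∃ x : Fin d → ℤ, x ≠ 0 ∧ (∀ i, |(x i : ℝ)| ≤ X) ∧ FF g (iR x) = t ∧ t ∈ S}

lemma valSet_finite {d : ℕ} (g : Matrix (Fin d) (Fin d) ℝ) (S : Set ℝ) (X : ℝ) :
    (valSet g S X).Finite := by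
  have h1 : (Set.pi Set.univ fun _ : Fin d => Set.Icc (-⌊X⌋) ⌊X⌋).Finite :=
    Set.Finite.pi fun _ => Set.finite_Icc _ _
  refine (h1.image fun x : Fin d → ℤ => FF g (iR x)).subset ?_
  rintro t ⟨x, -, hx, rfl, -⟩
  refine ⟨x, fun i _ => ?_, rfl⟩
  have h2 := abs_le.1 (hx i)
  constructor
  · have : -x i ≤ ⌊X⌋ := Int.le_floor.2 (by push_cast; linarith)
    omega
  · exact Int.le_floor.2 h2.2

/-- two places with the same configuration -/
lemma same_config {e : ℕ} (he : 2 ≤ e) {V ν : ℝ} (hV : 0 < V) (hν : 0 < ν)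
    {g : Matrix (Fin (e + 1)) (Fin (e + 1)) ℝ} (hdet : |g.det| = V) (hnu : HasNu g ν)
    (hint : ¬ PropInt g) {n : ℕ} (u u' : Fin e → Fin (n + 1))
    {γ γ' : Matrix (Fin (e + 1)) (Fin (e + 1)) ℤ} (hγ' : IsUnit γ'.det) (a : Fin (e + 1) → ℝ)
    (ha1 : ∀ i, 1 / 2 < a i) (ha2 : ∀ i, a i < 2)
    (heq : diagonal (pla u) * g * zR γ = diagonal a * (diagonal (pla u') * g * zR γ')) :
    (Finset.univ.image fun i => plc u i - plc u' i).card ≤ (e + 1) / (e + 1).minFac := by
  classical
  have hdet0 : g.det ≠ 0 := by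
    intro h0
    rw [h0, abs_zero] at hdet
    exact hV.ne hdet
  set c : Fin (e + 1) → ℝ := fun i => (pla u i)⁻¹ * (a i * pla u' i) with hc
  have hone : diagonal (fun i => (pla u i)⁻¹) * diagonal (pla u) = 1 := by
    rw [diagonal_mul_diagonal, ← diagonal_one]
    congr 1
    funext i
    exact inv_mul_cancel₀ (pla_pos u i).ne'
  have hg : g * zR γ = diagonal c * (g * zR γ') := by
    calc g * zR γ = diagonal (fun i => (pla u i)⁻¹) * diagonal (pla u) * (g * zR γ) := by
          rw [hone, Matrix.one_mul]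
      _ = diagonal (fun i => (pla u i)⁻¹) * (diagonal (pla u) * g * zR γ) := by
          simp only [Matrix.mul_assoc]
      _ = diagonal (fun i => (pla u i)⁻¹) * (diagonal a * (diagonal (pla u') * g * zR γ')) := by
          rw [heq]
      _ = (diagonal (fun i => (pla u i)⁻¹) * (diagonal a * diagonal (pla u'))) * (g * zR γ') := by
          simp only [Matrix.mul_assoc]
      _ = diagonal c * (g * zR γ') := by
          rw [diagonal_mul_diagonal, diagonal_mul_diagonal]
  have hstab : g * zR (γ * γ'⁻¹) = diagonal c * g := by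
    rw [zR_mul, ← Matrix.mul_assoc, hg, Matrix.mul_assoc, Matrix.mul_assoc, zR_inv hγ',
      Matrix.mul_one]
  have h1 := card_image_le (by omega : 3 ≤ e + 1) hdet0 hν hnu hint hstab
  refine le_trans ?_ h1
  -- the differences factor through `c`
  have hfac : ∀ i j, c i = c j → plc u i - plc u' i = plc u j - plc u' j := by
    intro i j hij
    have hci : ∀ i, c i = a i * Real.exp (-(2 * ((plc u i - plc u' i : ℤ) : ℝ))) := by
      intro i
      simp only [hc, pla]
      rw [← Real.exp_neg]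
      have h2 : Real.exp (-(2 * (plc u i : ℝ))) * (a i * Real.exp (2 * (plc u' i : ℝ))) =
          a i * (Real.exp (-(2 * (plc u i : ℝ))) * Real.exp (2 * (plc u' i : ℝ))) := by ring
      rw [h2, ← Real.exp_add]
      congr 2
      push_cast
      ring
    rw [hci, hci] at hij
    have hkey : ∀ (x y : ℤ) (α β : ℝ), 1 / 2 < α → α < 2 → 1 / 2 < β → β < 2 →
        α * Real.exp (-(2 * (x : ℝ))) = β * Real.exp (-(2 * (y : ℝ))) → ¬ x < y := by
      intro x y α β hα1 hα2 hβ1 hβ2 h hxy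
      have h3 : (x : ℝ) + 1 ≤ y := by exact_mod_cast hxy
      have h4 : Real.exp (-(2 * (x : ℝ))) = Real.exp (2 * ((y : ℝ) - x)) * Real.exp (-(2 * (y : ℝ))) := by
        rw [← Real.exp_add]
        congr 1
        ring
      rw [h4] at h
      have h5 : α * Real.exp (2 * ((y : ℝ) - x)) = β := by
        have h6 : (α * Real.exp (2 * ((y : ℝ) - x))) * Real.exp (-(2 * (y : ℝ))) =
            β * Real.exp (-(2 * (y : ℝ))) := by linarith
        exact mul_right_cancel₀ (Real.exp_pos _).ne' h6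
      have h6 : (4 : ℝ) < Real.exp (2 * ((y : ℝ) - x)) := by
        have h7 : Real.exp 2 ≤ Real.exp (2 * ((y : ℝ) - x)) := Real.exp_le_exp.2 (by linarith)
        have h8 : Real.exp 2 = Real.exp 1 * Real.exp 1 := by
          rw [← Real.exp_add]; norm_num
        have h9 := Real.exp_one_gt_d9
        nlinarith
      nlinarith
    have h2 := hkey _ _ _ _ (ha1 i) (ha2 i) (ha1 j) (ha2 j) hij
    have h3 := hkey _ _ _ _ (ha1 j) (ha2 j) (ha1 i) (ha2 i) hij.symm
    omega
  let F : ℝ → ℤ := fun r => if h : ∃ i, c i = r then plc u h.choose - plc u' h.choose else 0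
  have hF : (fun i => plc u i - plc u' i) = F ∘ c := by
    funext i
    have h2 : ∃ j, c j = c i := ⟨i, rfl⟩
    simp only [F, Function.comp, dif_pos h2]
    exact (hfac _ _ h2.choose_spec).symm
  rw [hF, ← Finset.image_image]
  exact Finset.card_image_le

lemma card_offdiag (e : ℕ) :
    Fintype.card {p : Fin (e + 1) × Fin (e + 1) // p.1 ≠ p.2} = e * (e + 1) := by
  classical
  rw [Fintype.card_subtype]
  have h1 : (Finset.univ.filter fun p : Fin (e + 1) × Fin (e + 1) => p.1 ≠ p.2) =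
      (Finset.univ : Finset (Fin (e + 1))).offDiag := by
    ext p
    simp [Finset.mem_offDiag]
  rw [h1, Finset.offDiag_card, Finset.card_univ, Fintype.card_fin]
  have : (e + 1) * (e + 1) = e * (e + 1) + (e + 1) := by ring
  omega

/-- **Counting places.** -/
theorem count_places {e : ℕ} (he : 2 ≤ e) {V ν : ℝ} (hV : 0 < V) (hν : 0 < ν)
    {Y : Set (Matrix (Fin (e + 1)) (Fin (e + 1)) ℝ)} (hYc : IsClosed Y) (hYinv : H715R2.Inv Y)
    (hYdet : ∀ h ∈ Y, |h.det| = V) (hYnu : ∀ h ∈ Y, HasNu h ν) {S : Set ℝ} (hSo : IsOpen S)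
    (hS : ∀ h ∈ Y, ∃ m : Fin (e + 1) → ℤ, m ≠ 0 ∧ FF h (iR m) ∈ S) :
    ∃ (q : ℕ) (C : ℝ), 0 < C ∧ ∀ g ∈ Y, ¬ PropInt g → ∀ (n : ℕ) (X : ℝ),
      C * (∑ i, ∑ j, |g⁻¹ i j|) * Real.exp (2 * (e * n)) ≤ X →
      (n + 1) ^ e ≤ ((2 * n + 1) ^ ((e + 1) / (e + 1).minFac - 1) * (e + 1) ^ (e + 1)) *
        (q * (valSet g S X).ncard ^ (e * (e + 1))) := by
  classical
  obtain ⟨R, B, ι, hι, m, W, hB0, hm0, hmB, hWS, hWt, hcov⟩ :=
    exists_cover (by omega : 0 < e + 1) hV hν hYc hYinv hYdet hYnu hSo hS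
  refine ⟨Fintype.card ι, ((e : ℝ) + 1) * (|R| + 1) * B, by positivity, fun g hg hint n X hX => ?_⟩
  have hdet := hYdet g hg
  have hdet0 : g.det ≠ 0 := by
    intro h0
    rw [h0, abs_zero] at hdet
    exact hV.ne hdet
  have hu : IsUnit g.det := isUnit_iff_ne_zero.2 hdet0
  have hpl : ∀ u : Fin e → Fin (n + 1), diagonal (pla u) * g ∈ Y := by
    intro u
    have := hYinv g hg (pla u) 1 (pla_pos u) (pla_prod u) (by simp)
    rwa [zR_one, Matrix.mul_one] at this
  choose γ hγ hγR k hk using fun u : Fin e → Fin (n + 1) => hcov _ (hpl u)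
  set G : ℝ := ∑ i, ∑ j, |g⁻¹ i j| with hG
  have hG0 : 0 ≤ G := Finset.sum_nonneg fun i _ => Finset.sum_nonneg fun j _ => abs_nonneg _
  set E : ℝ := Real.exp (2 * (e * n)) with hE
  have hE0 : 0 < E := Real.exp_pos _
  -- size of the integer points
  have hsize : ∀ (u : Fin e → Fin (n + 1)) (p : Fin (e + 1) × Fin (e + 1)) (i : Fin (e + 1)),
      |((γ u *ᵥ m (k u) p) i : ℝ)| ≤ X := by
    intro u p i
    have hinv : ∀ l, (pla u l)⁻¹ ≤ E := by
      intro l
      rw [pla, ← Real.exp_neg, hE]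
      apply Real.exp_le_exp.2
      have h1 := plc_le (by omega : 1 ≤ e) u l
      have h2 := (abs_le.1 h1).1
      have h3 : (-((e : ℝ) * n)) ≤ (plc u l : ℝ) := by exact_mod_cast h2
      linarith
    have h1 : iR (γ u *ᵥ m (k u) p) = g⁻¹ *ᵥ (diagonal (fun l => (pla u l)⁻¹) *ᵥ
        ((diagonal (pla u) * g * zR (γ u)) *ᵥ iR (m (k u) p))) := by
      rw [mulVec_mulVec, mulVec_mulVec, ← zR_mulVec_iR]
      congr 1
      have hone : diagonal (fun i => (pla u i)⁻¹) * diagonal (pla u) = 1 := by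
        rw [diagonal_mul_diagonal, ← diagonal_one]
        congr 1
        funext i
        exact inv_mul_cancel₀ (pla_pos u i).ne'
      calc zR (γ u) = (g⁻¹ * g) * zR (γ u) := by rw [Matrix.nonsing_inv_mul _ hu, Matrix.one_mul]
        _ = g⁻¹ * ((diagonal (fun i => (pla u i)⁻¹) * diagonal (pla u)) * (g * zR (γ u))) := by
            rw [hone, Matrix.one_mul, Matrix.mul_assoc]
        _ = _ := by simp only [Matrix.mul_assoc]
    have h2 : ∀ l, |((diagonal (pla u) * g * zR (γ u)) *ᵥ iR (m (k u) p)) l| ≤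
        ((e : ℝ) + 1) * ((|R| + 1) * B) := by
      intro l
      rw [mulVec, dotProduct]
      refine (Finset.abs_sum_le_sum_abs _ _).trans ?_
      have h3 : ∀ j ∈ (Finset.univ : Finset (Fin (e + 1))),
          |(diagonal (pla u) * g * zR (γ u)) l j * iR (m (k u) p) j| ≤ (|R| + 1) * B := by
        intro j _
        rw [abs_mul]
        exact mul_le_mul ((hγR u l j).trans ((le_abs_self R).trans (by linarith)))
          (hmB (k u) p j) (abs_nonneg _) (by positivity)
      refine (Finset.sum_le_sum h3).trans (le_of_eq ?_)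
      rw [Finset.sum_const, Finset.card_univ, Fintype.card_fin, nsmul_eq_mul]
      push_cast
      ring
    have h4 : |iR (γ u *ᵥ m (k u) p) i| ≤ ∑ l, |g⁻¹ i l| * (E * (((e : ℝ) + 1) * ((|R| + 1) * B))) := by
      rw [h1, mulVec, dotProduct]
      refine (Finset.abs_sum_le_sum_abs _ _).trans (Finset.sum_le_sum fun l _ => ?_)
      rw [abs_mul, mulVec_diagonal, abs_mul, abs_of_pos (inv_pos.2 (pla_pos u l))]
      exact mul_le_mul_of_nonneg_left (mul_le_mul (hinv l) (h2 l) (abs_nonneg _) hE0.le)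
        (abs_nonneg _)
    rw [← Finset.sum_mul] at h4
    have h5 : ∑ l, |g⁻¹ i l| ≤ G :=
      Finset.single_le_sum (f := fun i => ∑ l, |g⁻¹ i l|)
        (fun i _ => Finset.sum_nonneg fun j _ => abs_nonneg _) (Finset.mem_univ i)
    refine h4.trans (le_trans ?_ hX)
    calc (∑ l, |g⁻¹ i l|) * (E * (((e : ℝ) + 1) * ((|R| + 1) * B)))
        ≤ G * (E * (((e : ℝ) + 1) * ((|R| + 1) * B))) :=
          mul_le_mul_of_nonneg_right h5 (by positivity)
      _ = _ := by ring
  -- the finite set of values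
  set D : Finset ℝ := (valSet_finite g S X).toFinset with hD
  have hDcard : D.card = (valSet g S X).ncard := by
    rw [hD, Set.ncard_eq_toFinset_card _ (valSet_finite g S X)]
  have hval : ∀ (u : Fin e → Fin (n + 1)) (p : Fin (e + 1) × Fin (e + 1)),
      FF (diagonal (pla u) * g * zR (γ u)) (iR (m (k u) p)) ∈ D := by
    intro u p
    rw [hD, Set.Finite.mem_toFinset]
    refine ⟨γ u *ᵥ m (k u) p, ?_, hsize u p, ?_, ?_⟩
    · intro h0
      apply hm0 (k u) p
      have h3 : (γ u)⁻¹ *ᵥ (γ u *ᵥ m (k u) p) = 0 := by rw [h0, mulVec_zero]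
      rwa [mulVec_mulVec, Matrix.nonsing_inv_mul _ (hγ u), one_mulVec] at h3
    · rw [FF_orb (pla_prod u)]
    · exact hWS (k u) _ (hk u) p
  -- the configurations
  let cf : (Fin e → Fin (n + 1)) →
      ι × ({p : Fin (e + 1) × Fin (e + 1) // p.1 ≠ p.2} → ℝ) := fun u =>
    (k u, fun p => FF (diagonal (pla u) * g * zR (γ u)) (iR (m (k u) p.1)))
  set T : Finset (ι × ({p : Fin (e + 1) × Fin (e + 1) // p.1 ≠ p.2} → ℝ)) :=
    Finset.univ ×ˢ Fintype.piFinset fun _ => D with hT
  have hTcard : T.card = Fintype.card ι * (valSet g S X).ncard ^ (e * (e + 1)) := by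
    rw [hT, Finset.card_product, Fintype.card_piFinset, Finset.prod_const, Finset.card_univ,
      Finset.card_univ, card_offdiag, hDcard]
  have hplaces : (n + 1) ^ e = (Finset.univ : Finset (Fin e → Fin (n + 1))).card := by
    rw [Finset.card_univ, Fintype.card_fun, Fintype.card_fin, Fintype.card_fin]
  rw [hplaces, ← hTcard]
  refine Finset.card_le_mul_card_image_of_maps_to (f := cf) (fun u _ => ?_) _ (fun b _ => ?_)
  · rw [hT, Finset.mem_product]
    exact ⟨Finset.mem_univ _, Fintype.mem_piFinset.2 fun p => hval u p.1⟩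
  by_cases hne : (Finset.univ.filter (fun u => cf u = b)).Nonempty
  swap
  · rw [Finset.not_nonempty_iff_eq_empty.1 hne]
    simp
  obtain ⟨u₀, hu₀⟩ := hne
  rw [Finset.mem_filter] at hu₀
  refine card_few _ (fun u i => plc u i - plc u₀ i) ?_ n _ ?_ ?_ ?_
  · intro u _ u' _ h
    apply plc_inj
    funext i
    have := congrFun h i
    simp only at this
    linarith
  · intro u _
    rw [Finset.sum_sub_distrib, plc_sum, plc_sum, sub_zero]
  · intro u _ i hi
    exact plc_sub_le u u₀ i hi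
  · intro u hu
    rw [Finset.mem_filter] at hu
    have hcf : cf u = cf u₀ := hu.2.trans hu₀.2.symm
    have hk' : k u = k u₀ := congrArg Prod.fst hcf
    have hv : ∀ p : Fin (e + 1) × Fin (e + 1), p.1 ≠ p.2 →
        FF (diagonal (pla u) * g * zR (γ u)) (iR (m (k u) p)) =
        FF (diagonal (pla u₀) * g * zR (γ u₀)) (iR (m (k u) p)) := by
      intro p hp
      have h1 := congrFun (congrArg Prod.snd hcf) ⟨p, hp⟩
      simp only [cf] at h1
      rw [h1, hk']
    have hdets : ∀ u, |(diagonal (pla u) * g * zR (γ u)).det| = V := by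
      intro u
      rw [det_mul, abs_mul, det_zR, abs_det_of_isUnit (hγ u), mul_one]
      exact hYdet _ (hpl u)
    obtain ⟨a, ha1, ha2, ha⟩ := hWt (k u) _ (by rw [hk']; exact hk u₀) _ (hk u)
      (by rw [hdets, hdets]) (fun p hp => (hv p hp).symm)
    exact same_config he hV hν hdet (hYnu g hg) hint u u₀ (hγ u₀) a ha1 ha2 ha

end Pool.Agent.TH314.CSD
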