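import Mathlib
import Pool.Agent.TH314.CSD.Count

/-!
# The number of distinct values
-/

set_option autoImplicit false

open Filter Topology Matrix

namespace Pool.Agent.TH314.CSD

open H715R2

lemma real_of_nat {e : ℕ} (he : 2 ≤ e) : ∃ C₁ : ℕ → ℝ, (∀ q, 0 < C₁ q) ∧ ∀ q n D : ℕ,
    (n + 1) ^ e ≤ ((2 * n + 1) ^ ((e + 1) / (e + 1).minFac - 1) * (e + 1) ^ (e + 1)) *
        (q * D ^ (e * (e + 1))) →
    ((n : ℝ) + 1) ^ ((1 - 1 / (((e + 1).minFac : ℕ) : ℝ)) / e) ≤ C₁ q * D := by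
  set p := (e + 1).minFac with hp
  have hpd : p ∣ e + 1 := Nat.minFac_dvd _
  have hp2 : 2 ≤ p := (Nat.minFac_prime (by omega : e + 1 ≠ 1)).two_le
  set M := (e + 1) / p with hM
  have hMp : M * p = e + 1 := Nat.div_mul_cancel hpd
  have hM1 : 1 ≤ M := by
    rcases Nat.eq_zero_or_pos M with h | h
    · rw [h] at hMp; omega
    · exact h
  have hMe : M ≤ e := by
    have : M * 2 ≤ M * p := Nat.mul_le_mul_left _ hp2
    omega
  have he0 : (0 : ℝ) < e := by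
    have : 0 < e := by omega
    exact_mod_cast this
  have hp0 : (0 : ℝ) < p := by
    have : 0 < p := by omega
    exact_mod_cast this
  set K : ℕ := e * (e + 1) with hK
  have hK0 : K ≠ 0 := by
    rw [hK]; positivity
  have hKR : (0 : ℝ) < K := by
    have : 0 < K := Nat.pos_of_ne_zero hK0
    exact_mod_cast this
  set κ : ℝ := (1 - 1 / (p : ℝ)) / e with hκ
  have hκK : κ * K = ((e + 1 - M : ℕ) : ℝ) := by
    have h1 : (M : ℝ) * p = e + 1 := by exact_mod_cast hMp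
    have h2 : ((e + 1 - M : ℕ) : ℝ) = (e : ℝ) + 1 - M := by
      rw [Nat.cast_sub (by omega)]; push_cast; ring
    rw [h2, hκ, hK]
    push_cast
    field_simp
    rw [← h1]
    ring
  set A : ℕ → ℝ := fun q => 2 ^ (M - 1) * ((e : ℝ) + 1) ^ (e + 1) * ((q : ℝ) + 1) with hA
  have hA0 : ∀ q, 0 < A q := fun q => by simp only [hA]; positivity
  refine ⟨fun q => (A q) ^ ((1 : ℝ) / K), fun q => Real.rpow_pos_of_pos (hA0 q) _,
    fun q n D h => ?_⟩
  have h1 : ((n : ℝ) + 1) ^ e ≤ ((2 * (n : ℝ) + 1) ^ (M - 1) * ((e : ℝ) + 1) ^ (e + 1)) *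
      (q * (D : ℝ) ^ K) := by exact_mod_cast h
  set N : ℝ := (n : ℝ) + 1 with hN
  have hN1 : 1 ≤ N := by
    have : (0 : ℝ) ≤ n := Nat.cast_nonneg n
    linarith
  have hN0 : 0 < N := by linarith
  have h2 : (2 * (n : ℝ) + 1) ^ (M - 1) ≤ 2 ^ (M - 1) * N ^ (M - 1) := by
    rw [← mul_pow]
    exact pow_le_pow_left₀ (by positivity) (by rw [hN]; linarith) _
  have h3 : N ^ e ≤ N ^ (M - 1) * (A q * (D : ℝ) ^ K) := by
    refine h1.trans ?_
    have h4 : ((2 * (n : ℝ) + 1) ^ (M - 1) * ((e : ℝ) + 1) ^ (e + 1)) * (q * (D : ℝ) ^ K) ≤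
        (2 ^ (M - 1) * N ^ (M - 1) * ((e : ℝ) + 1) ^ (e + 1)) * (((q : ℝ) + 1) * (D : ℝ) ^ K) := by
      have hq : (0 : ℝ) ≤ q := Nat.cast_nonneg q
      have hq1 : (q : ℝ) * (D : ℝ) ^ K ≤ ((q : ℝ) + 1) * (D : ℝ) ^ K :=
        mul_le_mul_of_nonneg_right (by linarith) (by positivity)
      exact mul_le_mul (mul_le_mul_of_nonneg_right h2 (by positivity)) hq1 (by positivity)
        (by positivity)
    refine h4.trans (le_of_eq ?_)
    simp only [hA]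
    ring
  have h4 : N ^ (e + 1 - M) ≤ A q * (D : ℝ) ^ K := by
    have h5 : N ^ e = N ^ (M - 1) * N ^ (e + 1 - M) := by
      rw [← pow_add]; congr 1; omega
    rw [h5] at h3
    exact le_of_mul_le_mul_left h3 (by positivity)
  have h5 : (N ^ κ) ^ K ≤ ((A q) ^ ((1 : ℝ) / K) * D) ^ K := by
    have e1 : (N ^ κ) ^ K = N ^ (e + 1 - M) := by
      rw [← Real.rpow_natCast (N ^ κ), ← Real.rpow_mul hN0.le, hκK, Real.rpow_natCast]
    have e2 : ((A q) ^ ((1 : ℝ) / K)) ^ K = A q := by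
      rw [← Real.rpow_natCast, ← Real.rpow_mul (hA0 q).le, one_div, inv_mul_cancel₀ hKR.ne',
        Real.rpow_one]
    rw [mul_pow, e1, e2]
    exact h4
  exact le_of_pow_le_pow_left₀ hK0 (by
    have := Real.rpow_pos_of_pos (hA0 q) ((1 : ℝ) / K)
    positivity) h5

/-- **The number of distinct values in `S` at integer points of norm at most `X`.** -/
theorem count_values {d : ℕ} (hd : 3 ≤ d) {V ν : ℝ} (hV : 0 < V) (hν : 0 < ν)
    {Y : Set (Matrix (Fin d) (Fin d) ℝ)} (hYc : IsClosed Y) (hYinv : H715R2.Inv Y)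
    (hYdet : ∀ h ∈ Y, |h.det| = V) (hYnu : ∀ h ∈ Y, HasNu h ν) {S : Set ℝ} (hSo : IsOpen S)
    (hS : ∀ h ∈ Y, ∃ m : Fin d → ℤ, m ≠ 0 ∧ FF h (iR m) ∈ S) :
    ∃ c : ℝ, 0 < c ∧ ∀ g ∈ Y, ¬ PropInt g → ∃ X₀ : ℝ, ∀ X : ℝ, X₀ ≤ X →
      c * Real.log X ^ ((1 - 1 / (d.minFac : ℝ)) / ((d : ℝ) - 1)) ≤ (valSet g S X).ncard := by
  classical
  obtain ⟨e, rfl⟩ : ∃ e, d = e + 1 := ⟨d - 1, by omega⟩
  have he : 2 ≤ e := by omega
  obtain ⟨q, C, hC, hcount⟩ := count_places he hV hν hYc hYinv hYdet hYnu hSo hS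
  obtain ⟨C₁, hC₁, hreal⟩ := real_of_nat he
  have hcast : (((e + 1 : ℕ) : ℝ) - 1) = e := by push_cast; ring
  rw [hcast]
  set κ : ℝ := (1 - 1 / (((e + 1).minFac : ℕ) : ℝ)) / e with hκ
  have hp2 : 2 ≤ (e + 1).minFac := (Nat.minFac_prime (by omega : e + 1 ≠ 1)).two_le
  have he0 : (0 : ℝ) < e := by
    have : 0 < e := by omega
    exact_mod_cast this
  have hκ0 : 0 ≤ κ := by
    rw [hκ]
    refine div_nonneg ?_ he0.le
    rw [sub_nonneg, div_le_one (by positivity)]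
    have : 1 ≤ (e + 1).minFac := by omega
    exact_mod_cast this
  refine ⟨(C₁ q)⁻¹ * (1 / (4 * (e : ℝ))) ^ κ, mul_pos (inv_pos.2 (hC₁ q))
    (Real.rpow_pos_of_pos (by positivity) _), fun g hg hint => ?_⟩
  set Cg : ℝ := max (C * (∑ i, ∑ j, |g⁻¹ i j|)) 1 with hCg
  have hCg1 : 1 ≤ Cg := le_max_right _ _
  have hCg0 : 0 < Cg := by linarith
  refine ⟨Cg ^ 2, fun X hX => ?_⟩
  have hX1 : 1 ≤ X := by nlinarith
  have hX0 : 0 < X := by linarith
  have hlogX : 0 ≤ Real.log X := Real.log_nonneg hX1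
  have hlog : 2 * Real.log Cg ≤ Real.log X := by
    have h1 := Real.log_le_log (by positivity) hX
    rw [Real.log_pow] at h1
    exact_mod_cast h1
  have hlogC : 0 ≤ Real.log Cg := Real.log_nonneg hCg1
  set y : ℝ := (Real.log X - Real.log Cg) / (2 * e) with hy
  have hy0 : 0 ≤ y := div_nonneg (by linarith) (by positivity)
  set n : ℕ := ⌊y⌋₊ with hn
  have hny : (n : ℝ) ≤ y := Nat.floor_le hy0
  have hny' : y < (n : ℝ) + 1 := Nat.lt_floor_add_one y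
  have hcond : C * (∑ i, ∑ j, |g⁻¹ i j|) * Real.exp (2 * (e * n)) ≤ X := by
    have h1 : 2 * ((e : ℝ) * n) ≤ Real.log X - Real.log Cg := by
      rw [hy, le_div_iff₀ (by positivity)] at hny
      linarith
    have h2 : Real.exp (2 * (e * n)) ≤ X / Cg := by
      refine (Real.exp_le_exp.2 h1).trans (le_of_eq ?_)
      rw [Real.exp_sub, Real.exp_log hX0, Real.exp_log hCg0]
    calc C * (∑ i, ∑ j, |g⁻¹ i j|) * Real.exp (2 * (e * n)) ≤ Cg * (X / Cg) :=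
          mul_le_mul (le_max_left _ _) h2 (Real.exp_pos _).le hCg0.le
      _ = X := mul_div_cancel₀ _ hCg0.ne'
  have h1 := hreal q n _ (hcount g hg hint n X hcond)
  have h2 : Real.log X / (4 * e) ≤ (n : ℝ) + 1 := by
    have h3 : Real.log X / (4 * e) ≤ y := by
      rw [hy, div_le_div_iff₀ (by positivity) (by positivity)]
      nlinarith
    linarith
  have h3 : (Real.log X / (4 * e)) ^ κ ≤ ((n : ℝ) + 1) ^ κ :=
    Real.rpow_le_rpow (by positivity) h2 hκ0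
  have h4 : (Real.log X / (4 * e)) ^ κ = (1 / (4 * (e : ℝ))) ^ κ * Real.log X ^ κ := by
    rw [← Real.mul_rpow (by positivity) hlogX]
    congr 1
    ring
  rw [h4] at h3
  have h5 : (1 / (4 * (e : ℝ))) ^ κ * Real.log X ^ κ ≤ C₁ q * ((valSet g S X).ncard : ℝ) :=
    h3.trans h1
  calc (C₁ q)⁻¹ * (1 / (4 * (e : ℝ))) ^ κ * Real.log X ^ κ
      = (C₁ q)⁻¹ * ((1 / (4 * (e : ℝ))) ^ κ * Real.log X ^ κ) := by ring
    _ ≤ (C₁ q)⁻¹ * (C₁ q * ((valSet g S X).ncard : ℝ)) :=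
        mul_le_mul_of_nonneg_left h5 (inv_pos.2 (hC₁ q)).le
    _ = _ := by rw [← mul_assoc, inv_mul_cancel₀ (hC₁ q).ne', one_mul]

end Pool.Agent.TH314.CSD
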