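import Mathlib
import Pool.Agent.W241.LacD

/-!
# The values of a recurrent counterexample to the conjecture of Cassels and Swinnerton-Dyer

Near each of its values there are differences of values at all scales.
-/

set_option autoImplicit false

open Filter Topology Matrix

namespace Pool.Agent.TH314.CSD

open H715R2 Pool.Agent.W241.Lac

variable {d : ℕ}

/-- the orbit closure of `h` is minimal -/
def Recurrent (h : Matrix (Fin d) (Fin d) ℝ) : Prop :=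
  ∀ h' ∈ closure (Orb h), h ∈ closure (Orb h')

lemma inv_closure (h : Matrix (Fin d) (Fin d) ℝ) : H715R2.Inv (closure (Orb h)) :=
  fun _ hh _ _ ha0 ha hγ => closure_mul hh ha0 ha hγ

lemma Recurrent.minimal {h : Matrix (Fin d) (Fin d) ℝ} (hh : Recurrent h) :
    ∀ Y ⊆ closure (Orb h), IsClosed Y → Y.Nonempty → H715R2.Inv Y → Y = closure (Orb h) := by
  intro Y hY hYc hYn hYi
  refine subset_antisymm hY ?_
  obtain ⟨h', hh'⟩ := hYn
  have h1 : closure (Orb h') ⊆ Y := orb_subset hYc hYi hh'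
  have h2 : h ∈ Y := h1 (hh h' (hY hh'))
  exact orb_subset hYc hYi h2

lemma recurrent_of_minimal {M : Set (Matrix (Fin d) (Fin d) ℝ)} (hMc : IsClosed M)
    (hMinv : H715R2.Inv M)
    (hMmin : ∀ Y ⊆ M, IsClosed Y → Y.Nonempty → H715R2.Inv Y → Y = M)
    {h : Matrix (Fin d) (Fin d) ℝ} (hh : h ∈ M) : Recurrent h := by
  intro h' hh'
  have h1 : h' ∈ M := orb_subset hMc hMinv hh hh'
  rw [closure_orb_eq hMc hMinv hMmin h1]
  exact hh

lemma orb_closure_trans {g h : Matrix (Fin d) (Fin d) ℝ} (hh : h ∈ closure (Orb g)) :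
    closure (Orb h) ⊆ closure (Orb g) :=
  orb_subset isClosed_closure (inv_closure g) hh

/-- a minimal set in the orbit closure of a counterexample has no locally isolated orbit -/
theorem not_loc (hd : 3 ≤ d) {g : Matrix (Fin d) (Fin d) ℝ} (hg : g.det ≠ 0) {ν : ℝ} (hν : 0 < ν)
    (hnu : HasNu g ν) (hint : ¬ PropInt g) {M : Set (Matrix (Fin d) (Fin d) ℝ)}
    (hMg : M ⊆ closure (Orb g)) (hMc : IsClosed M) (hMinv : H715R2.Inv M)
    (hMmin : ∀ Y ⊆ M, IsClosed Y → Y.Nonempty → H715R2.Inv Y → Y = M)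
    {h₀ : Matrix (Fin d) (Fin d) ℝ} (hh₀ : h₀ ∈ M) :
    ¬ ∀ᶠ h in 𝓝[M] h₀, ∃ a : Fin d → ℝ, (∀ i, 0 < a i) ∧ ∏ i, a i = 1 ∧
      h = diagonal a * h₀ := by
  intro hloc
  have hd0 : 0 < d := by omega
  have hdet : |h₀.det| = |g.det| := abs_det_closure (hMg hh₀)
  have hdet0 : h₀.det ≠ 0 := by
    intro h0
    rw [h0, abs_zero] at hdet
    exact hg (abs_eq_zero.1 hdet.symm)
  have hnu₀ := hasNu_closure hnu (hMg hh₀)
  have horb := single_orbit hMc hMinv hMmin hh₀ hloc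
  obtain ⟨δ, c, hc, hδ⟩ := exists_stabilizer (by omega) hν hg hnu hMg hMc hMinv hh₀ hloc horb
  obtain ⟨K, hfin, hK, s, hs, hmem⟩ := exists_alg_row hdet0 δ c hc hδ ⟨0, hd0⟩
  rcases limit_alg hd hg (hMg hh₀) ⟨0, hd0⟩ s hs K hK hmem with ⟨x, hx, hx0⟩ | hint' | hdense
  · have h1 := hnu₀ x hx
    have h2 : FF h₀ (iR x) = 0 := by
      rw [FF]
      exact Finset.prod_eq_zero (Finset.mem_univ ⟨0, hd0⟩) hx0
    rw [h2, abs_zero] at h1
    exact absurd h1 (not_le.2 hν)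
  · exact hint hint'
  · obtain ⟨x, hx, hx2⟩ := dense_ne hd0 hdense 0 ν hν
    rw [sub_zero] at hx2
    exact absurd (hnu x hx) (not_le.2 hx2)

/-- **Differences of values at all scales near every point of a minimal set.** -/
theorem scales (hd : 0 < d) {V ν : ℝ} (hV : 0 < V) (hν : 0 < ν)
    {M : Set (Matrix (Fin d) (Fin d) ℝ)} (hMdet : ∀ h ∈ M, |h.det| = V)
    (hMnu : ∀ h ∈ M, HasNu h ν) (hMc : IsClosed M) (hMinv : H715R2.Inv M)
    (hMmin : ∀ Z ⊆ M, IsClosed Z → Z.Nonempty → H715R2.Inv Z → Z = M)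
    {h₀ : Matrix (Fin d) (Fin d) ℝ} (hh₀ : h₀ ∈ M)
    (hloc : ¬ ∀ᶠ h in 𝓝[M] h₀, ∃ a : Fin d → ℝ, (∀ i, 0 < a i) ∧ ∏ i, a i = 1 ∧
      h = diagonal a * h₀) {m : Fin d → ℤ} (hm0 : m ≠ 0)
    {W₀ : Set (Matrix (Fin d) (Fin d) ℝ)} (hW₀ : W₀ ∈ 𝓝 h₀) :
    ∃ R : ℝ, 1 < R ∧ ∃ ε : ℝ, 0 < ε ∧ ∀ η : ℝ, 0 < η → η < ε →
      ∃ h ∈ M, ∃ h' ∈ M, h ∈ W₀ ∧ h' ∈ W₀ ∧ η ≤ |FF h (iR m) - FF h' (iR m)| ∧
        |FF h (iR m) - FF h' (iR m)| ≤ R * η := by
  classical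
  have hz : ∀ j, (h₀ *ᵥ iR m) j ≠ 0 := by
    intro j hj
    have h1 := hMnu _ hh₀ m hm0
    rw [FF_eq, Finset.prod_eq_zero (Finset.mem_univ j) hj, abs_zero] at h1
    exact absurd h1 (not_le.2 hν)
  -- the elementary pair
  obtain ⟨θ, -, h₁, X, hX0, hXup, hP⟩ :=
    exists_upper hd hV hν hMdet hMnu hMc hMinv hh₀ hloc
  obtain ⟨h₂, i, j, s, hij, hs, hP₂⟩ := exists_single hd hV hν hMdet hMnu hMc hMinv θ _ h₁ X hX0
    hXup hP le_rfl
  have hP₂' : Pr M 1 h₂ (sg i j s) := hP₂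
  -- the derivative of the value
  set G : Matrix (Fin d) (Fin d) ℝ → ℝ := fun h =>
    (h *ᵥ iR m) j * ∏ k ∈ Finset.univ.erase i, (h *ᵥ iR m) k with hG
  have hGc : Continuous G := by
    have h1 : ∀ k, Continuous (fun h : Matrix (Fin d) (Fin d) ℝ => (h *ᵥ iR m) k) := by
      intro k
      unfold mulVec dotProduct
      exact continuous_finsetSum _ fun l _ => (continuous_apply_apply k l).mul continuous_const
    exact (h1 j).mul (continuous_finsetProd _ fun k _ => h1 k)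
  have hG0 : G h₀ ≠ 0 := mul_ne_zero (hz j) (Finset.prod_ne_zero_iff.2 fun k _ => hz k)
  set g₀ := |G h₀| with hg₀
  have hg₀pos : 0 < g₀ := abs_pos.2 hG0
  have hGev : ∀ᶠ h in 𝓝 h₀, g₀ / 2 < |G h| ∧ |G h| < 2 * g₀ := by
    have h1 := (continuous_abs.comp hGc).tendsto h₀
    exact (h1.eventually (lt_mem_nhds (by simp only [Function.comp]; linarith))).and
      (h1.eventually (gt_mem_nhds (by simp only [Function.comp]; linarith)))
  have hW : W₀ ∩ {h | g₀ / 2 < |G h| ∧ |G h| < 2 * g₀} ∈ 𝓝 h₀ := Filter.inter_mem hW₀ hGev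
  set W := W₀ ∩ {h | g₀ / 2 < |G h| ∧ |G h| < 2 * g₀} with hWdef
  -- a product neighbourhood
  have hel : Continuous (fun p : Matrix (Fin d) (Fin d) ℝ × ℝ =>
      (1 + Matrix.of (sg i j p.2) : Matrix (Fin d) (Fin d) ℝ) * p.1) := by
    have h1 : Continuous (fun p : Matrix (Fin d) (Fin d) ℝ × ℝ =>
        (Matrix.of (sg i j p.2) : Matrix (Fin d) (Fin d) ℝ)) := by
      refine continuous_matrix fun k l => ?_
      simp only [Matrix.of_apply, sg]
      split_ifs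
      · exact continuous_snd
      · exact continuous_const
    exact (continuous_const.add h1).matrix_mul continuous_fst
  have hel0 : (1 + Matrix.of (sg i j 0) : Matrix (Fin d) (Fin d) ℝ) * h₀ = h₀ := by
    have h1 : (1 + Matrix.of (sg i j 0) : Matrix (Fin d) (Fin d) ℝ) = 1 := by
      ext k l
      simp [sg]
    rw [h1, Matrix.one_mul]
  have hev : ∀ᶠ p in 𝓝 (h₀, (0 : ℝ)), p.1 ∈ W ∧
      (1 + Matrix.of (sg i j p.2) : Matrix (Fin d) (Fin d) ℝ) * p.1 ∈ W := by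
    refine Filter.Eventually.and ?_ ?_
    · exact (continuous_fst.tendsto (h₀, (0 : ℝ))).eventually hW
    · have h1 := hel.tendsto (h₀, (0 : ℝ))
      simp only [hel0] at h1
      exact h1.eventually hW
  obtain ⟨U1, hU1, U2, hU2, hU12⟩ := mem_nhds_prod_iff.1 hev
  obtain ⟨U, hUU1, hUo, hh₀U⟩ := mem_nhds_iff.1 hU1
  obtain ⟨δ, hδ, hδU⟩ := Metric.mem_nhds_iff.1 hU2
  obtain ⟨B, hB, hret⟩ := exists_return hd hV hν hMdet hMnu hMc hMinv hMmin hh₀ hUo hh₀U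
  have hB0 : 0 < B := by linarith
  have hR : 1 < 4 * B ^ 4 + 1 := by
    have : 0 < 4 * B ^ 4 := by positivity
    linarith
  refine ⟨4 * B ^ 4 + 1, hR, g₀ / 2 / B ^ 2 * (δ / B ^ 2), by positivity, fun η hη0 hηlt => ?_⟩
  -- the scale of the pair
  set ρ : ℝ := η * B ^ 2 / (g₀ / 2) with hρ
  have hρ0 : 0 < ρ := by positivity
  have hρδ : ρ * B ^ 2 < δ := by
    have h1 : η * B ^ 4 < g₀ / 2 * δ := by
      have h2 := mul_lt_mul_of_pos_right hηlt (by positivity : 0 < B ^ 4)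
      have h3 : g₀ / 2 / B ^ 2 * (δ / B ^ 2) * B ^ 4 = g₀ / 2 * δ := by field_simp
      rwa [h3] at h2
    rw [hρ]
    have h2 : η * B ^ 2 / (g₀ / 2) * B ^ 2 = η * B ^ 4 / (g₀ / 2) := by ring
    rw [h2, div_lt_iff₀ (by positivity)]
    linarith
  obtain ⟨a, ha0, ha1, har⟩ := exists_ratio hij (r := ρ / |s|) (div_pos hρ0 (abs_pos.2 hs))
  have hP₃ := hP₂'.act hMinv (γ := 1) ha0 ha1 (by simp)
  rw [cj_sg] at hP₃
  set σ₁ : ℝ := a i * s / a j with hσ₁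
  have hσ₁abs : |σ₁| = ρ := by
    have h1 : σ₁ = (a i / a j) * s := by rw [hσ₁]; ring
    rw [h1, har, abs_mul, abs_div, abs_abs, abs_of_pos hρ0]
    exact div_mul_cancel₀ _ (abs_pos.2 hs).ne'
  obtain ⟨b, γ, hb0, hb1, hγ, hbB, hbU⟩ := hret _ hP₃.1
  have hP₄ := hP₃.act hMinv hb0 hb1 hγ
  rw [cj_sg] at hP₄
  set h : Matrix (Fin d) (Fin d) ℝ := diagonal b * (diagonal a * h₂ * zR 1) * zR γ with hh
  set σ : ℝ := b i * σ₁ / b j with hσ
  have hσabs : |σ| = b i / b j * ρ := by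
    have h1 : σ = (b i / b j) * σ₁ := by rw [hσ]; ring
    rw [h1, abs_mul, hσ₁abs, abs_of_pos (div_pos (hb0 i) (hb0 j))]
  have hratio : b i / b j ≤ B ^ 2 ∧ 1 / B ^ 2 ≤ b i / b j := by
    have hinvb : ∀ k, (b k)⁻¹ ≤ B := fun k => by
      rw [inv_le_comm₀ (hb0 k) hB0]; exact (hbB k).2
    constructor
    · rw [div_eq_mul_inv, pow_two]
      exact mul_le_mul (hbB i).1 (hinvb j) (inv_pos.2 (hb0 j)).le hB0.le
    · rw [div_le_div_iff₀ (by positivity) (hb0 j), one_mul]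
      have h1 : b j ≤ B := (hbB j).1
      have h2 : 1 ≤ b i * B := by
        have := (hbB i).2
        rw [inv_le_iff_one_le_mul₀ hB0] at this
        exact this
      nlinarith [hb0 i, hb0 j]
  have hσup : |σ| ≤ B ^ 2 * ρ := by
    rw [hσabs]; exact mul_le_mul_of_nonneg_right hratio.1 hρ0.le
  have hσlow : ρ / B ^ 2 ≤ |σ| := by
    rw [hσabs]
    have := mul_le_mul_of_nonneg_right hratio.2 hρ0.le
    calc ρ / B ^ 2 = 1 / B ^ 2 * ρ := by ring
      _ ≤ _ := this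
  have hmem : (h, σ) ∈ U1 ×ˢ U2 := by
    refine ⟨hUU1 hbU, hδU ?_⟩
    rw [mem_ball_zero_iff, Real.norm_eq_abs]
    linarith
  obtain ⟨hhW, hh'W⟩ := hU12 hmem
  obtain ⟨hhM, -, hh'M⟩ := hP₄
  rw [one_smul] at hh'M
  simp only at hhW hh'W
  set h' := (1 + Matrix.of (sg i j σ) : Matrix (Fin d) (Fin d) ℝ) * h with hh'
  have habs : |FF h (iR m) - FF h' (iR m)| = |σ| * |G h| := by
    have h0' : FF h' (iR m) = FF h (iR m) + σ * G h := FF_sg h σ (iR m)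
    rw [h0']
    have : FF h (iR m) - (FF h (iR m) + σ * G h) = -(σ * G h) := by ring
    rw [this, abs_neg, abs_mul]
  have hGh := hhW.2
  refine ⟨h, hhM, h', hh'M, hhW.1, hh'W.1, ?_, ?_⟩
  · rw [habs]
    have h1 : ρ / B ^ 2 * (g₀ / 2) ≤ |σ| * |G h| :=
      mul_le_mul hσlow hGh.1.le (by positivity) (abs_nonneg _)
    have h2 : ρ / B ^ 2 * (g₀ / 2) = η := by
      rw [hρ]; field_simp
    linarith
  · rw [habs]
    have h1 : |σ| * |G h| ≤ B ^ 2 * ρ * (2 * g₀) :=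
      mul_le_mul hσup hGh.2.le (abs_nonneg _) (by positivity)
    have h2 : B ^ 2 * ρ * (2 * g₀) = 4 * B ^ 4 * η := by
      rw [hρ]; field_simp; ring
    linarith

/-- values of a limit form are limits of values -/
lemma exists_value_near {g h : Matrix (Fin d) (Fin d) ℝ} (hh : h ∈ closure (Orb g))
    {m : Fin d → ℤ} (hm0 : m ≠ 0) {U : Set ℝ} (hU : U ∈ 𝓝 (FF h (iR m))) :
    ∃ y : Fin d → ℤ, y ≠ 0 ∧ FF g (iR y) ∈ U := by
  obtain ⟨u, hu, hlim⟩ := exists_seq_of_mem_closure hh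
  have h1 : Tendsto (fun n => FF (u n) (iR m)) atTop (𝓝 (FF h (iR m))) :=
    ((continuous_FF (iR m)).tendsto h).comp hlim
  obtain ⟨n, hn⟩ := (h1.eventually hU).exists
  obtain ⟨a, γ, _, ha, hγ, hun⟩ := hu n
  have hγm : γ *ᵥ m ≠ 0 := by
    intro h0
    apply hm0
    have h3 : γ⁻¹ *ᵥ (γ *ᵥ m) = 0 := by rw [h0, mulVec_zero]
    rwa [mulVec_mulVec, Matrix.nonsing_inv_mul _ hγ, one_mulVec] at h3
  refine ⟨γ *ᵥ m, hγm, ?_⟩
  rw [hun, FF_orb ha] at hn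
  exact hn

/-- values of a limit form are in the closure of the set of values -/
lemma mem_closure_values {g h : Matrix (Fin d) (Fin d) ℝ} (hh : h ∈ closure (Orb g))
    {m : Fin d → ℤ} (hm0 : m ≠ 0) {U : Set ℝ} (hU : IsOpen U) (hmU : FF h (iR m) ∈ U) :
    FF h (iR m) ∈ closure {t : ℝ | ∃ y : Fin d → ℤ, y ≠ 0 ∧ FF g (iR y) = t ∧ t ∈ U} := by
  rw [mem_closure_iff_nhds]
  intro N hN
  obtain ⟨y, hy, hyN⟩ := exists_value_near hh hm0 (Filter.inter_mem hN (hU.mem_nhds hmU))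
  exact ⟨FF g (iR y), hyN.1, y, hy, rfl, hyN.2⟩

/-- the property of the values of a form -/
def AtAllScales (h : Matrix (Fin d) (Fin d) ℝ) : Prop :=
  ∀ x : Fin d → ℤ, x ≠ 0 → ∀ U : Set ℝ, IsOpen U → FF h (iR x) ∈ U →
    ∃ R : ℝ, 1 < R ∧ ∃ ε : ℝ, 0 < ε ∧ ∀ η : ℝ, 0 < η → η < ε →
      ∃ y y' : Fin d → ℤ, y ≠ 0 ∧ y' ≠ 0 ∧ FF h (iR y) ∈ U ∧ FF h (iR y') ∈ U ∧
        η ≤ |FF h (iR y) - FF h (iR y')| ∧ |FF h (iR y) - FF h (iR y')| ≤ R * η

/-- not covered by countably many lacunary sets near any value -/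
def NowhereLacunary (h : Matrix (Fin d) (Fin d) ℝ) : Prop :=
  ∀ x : Fin d → ℤ, x ≠ 0 → ∀ U : Set ℝ, IsOpen U → FF h (iR x) ∈ U →
    ∀ C : ℕ → Set ℝ, (∀ k, Lacunary (C k)) →
      ¬ closure {t : ℝ | ∃ y : Fin d → ℤ, y ≠ 0 ∧ FF h (iR y) = t ∧ t ∈ U} ⊆ ⋃ k, C k

/-- a point of `M` at which the values stay in one member of a countable family of closed sets -/
theorem locally_mem' {M : Set (Matrix (Fin d) (Fin d) ℝ)} (hM : IsClosed M) (hne : M.Nonempty)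
    (C : ℕ → Set ℝ) (hC : ∀ k, IsClosed (C k)) :
    ∃ h₀ ∈ M, ∀ m : Fin d → ℤ, FF h₀ (iR m) ∈ ⋃ k, C k →
      ∃ k, ∀ᶠ h in 𝓝[M] h₀, FF h (iR m) ∈ C k := by
  classical
  have hlc : LocallyCompactSpace M := hM.locallyCompactSpace
  have hB : BaireSpace M := BaireSpace.of_t2Space_locallyCompactSpace
  have hMne : Nonempty M := hne.to_subtype
  let Z : (Fin d → ℤ) × ℕ → Set M := fun p =>
    {h | FF (h : Matrix (Fin d) (Fin d) ℝ) (iR p.1) ∈ C p.2}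
  have hZc : ∀ p, IsClosed (Z p) := fun p =>
    (hC p.2).preimage ((continuous_FF (iR p.1)).comp continuous_subtype_val)
  have hdense : Dense (⋂ p, (frontier (Z p))ᶜ) := by
    refine dense_iInter_of_isOpen (fun p => isClosed_frontier.isOpen_compl) fun p => ?_
    rw [← interior_eq_empty_iff_dense_compl]
    exact interior_frontier (hZc p)
  obtain ⟨h₀, hh₀⟩ := hdense.nonempty
  rw [Set.mem_iInter] at hh₀
  refine ⟨h₀, h₀.2, fun m hm => ?_⟩
  obtain ⟨k, hk⟩ := Set.mem_iUnion.1 hm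
  refine ⟨k, ?_⟩
  have h1 := hh₀ (m, k)
  have h2 : h₀ ∈ Z (m, k) := hk
  have h3 : h₀ ∈ interior (Z (m, k)) := by
    by_contra hcon
    exact h1 ⟨subset_closure h2, hcon⟩
  have h4 : ∀ᶠ h : M in 𝓝 h₀, FF (h : Matrix (Fin d) (Fin d) ℝ) (iR m) ∈ C k := by
    filter_upwards [mem_interior_iff_mem_nhds.1 h3] with h hh
    exact hh
  rw [nhdsWithin_eq_map_subtype_coe h₀.2, Filter.eventually_map]
  exact h4

/-- **Recurrent counterexamples.** -/
theorem recurrent_values (hd : 3 ≤ d) {g : Matrix (Fin d) (Fin d) ℝ} (hg : g.det ≠ 0) {ν : ℝ}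
    (hν : 0 < ν) (hnu : HasNu g ν) (hint : ¬ PropInt g) {h : Matrix (Fin d) (Fin d) ℝ}
    (hh : h ∈ closure (Orb g)) (hrec : Recurrent h) :
    ¬ PropInt h ∧ AtAllScales h ∧ NowhereLacunary h := by
  have hd0 : 0 < d := by omega
  have hV : 0 < |g.det| := abs_pos.2 hg
  set M := closure (Orb h) with hM
  have hMg : M ⊆ closure (Orb g) := orb_closure_trans hh
  have hMc : IsClosed M := isClosed_closure
  have hMinv : H715R2.Inv M := inv_closure h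
  have hMmin : ∀ Y ⊆ M, IsClosed Y → Y.Nonempty → H715R2.Inv Y → Y = M := hrec.minimal
  have hMdet : ∀ h' ∈ M, |h'.det| = |g.det| := fun h' hh' => abs_det_closure (hMg hh')
  have hMnu : ∀ h' ∈ M, HasNu h' ν := fun h' hh' => hasNu_closure hnu (hMg hh')
  have hhM : h ∈ M := subset_closure (mem_orb_self h)
  have hloc : ∀ h₀ ∈ M, ¬ ∀ᶠ h' in 𝓝[M] h₀, ∃ a : Fin d → ℝ, (∀ i, 0 < a i) ∧ ∏ i, a i = 1 ∧
      h' = diagonal a * h₀ := fun h₀ hh₀ =>
    not_loc hd hg hν hnu hint hMg hMc hMinv hMmin hh₀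
  have hint' : ¬ PropInt h := by
    intro hp
    apply hint
    refine core hd hg hν hnu hMg hMc ⟨h, hhM⟩ hMinv hMmin (VV h) (countable_VV hp) ?_
    intro h' hh' m
    exact mem_VV_of_mem_closure hh' m
  refine ⟨hint', ?_, ?_⟩
  · intro x hx U hU hxU
    have hW : (fun h' : Matrix (Fin d) (Fin d) ℝ => FF h' (iR x)) ⁻¹' U ∈ 𝓝 h :=
      (continuous_FF (iR x)).continuousAt.preimage_mem_nhds (hU.mem_nhds hxU)
    obtain ⟨R, hR, ε, hε, hsc⟩ := scales hd0 hV hν hMdet hMnu hMc hMinv hMmin hhM (hloc h hhM) hx hW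
    refine ⟨2 * R + 1, by linarith, ε / 2, by linarith, fun η hη0 hηε => ?_⟩
    obtain ⟨h₁, hh₁, h₂, hh₂, hW₁, hW₂, hlo, hup⟩ := hsc (2 * η) (by linarith) (by linarith)
    have hnb : ∀ v : ℝ, v ∈ U → U ∩ Metric.ball v (η / 2) ∈ 𝓝 v := fun v hv =>
      Filter.inter_mem (hU.mem_nhds hv) (Metric.ball_mem_nhds _ (by linarith))
    obtain ⟨y, hy, hyU, hyb⟩ := exists_value_near hh₁ hx (hnb _ hW₁)
    obtain ⟨y', hy', hyU', hyb'⟩ := exists_value_near hh₂ hx (hnb _ hW₂)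
    rw [Metric.mem_ball, Real.dist_eq] at hyb hyb'
    refine ⟨y, y', hy, hy', hyU, hyU', ?_, ?_⟩
    · have h1 : |FF h₁ (iR x) - FF h₂ (iR x)| ≤ |FF h (iR y) - FF h (iR y')| +
          |FF h (iR y) - FF h₁ (iR x)| + |FF h (iR y') - FF h₂ (iR x)| := by
        have e : FF h₁ (iR x) - FF h₂ (iR x) = (FF h (iR y) - FF h (iR y')) -
            (FF h (iR y) - FF h₁ (iR x)) + (FF h (iR y') - FF h₂ (iR x)) := by ring
        rw [e]
        refine (abs_add_le _ _).trans ?_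
        have := abs_sub (FF h (iR y) - FF h (iR y')) (FF h (iR y) - FF h₁ (iR x))
        linarith
      linarith
    · have h1 : |FF h (iR y) - FF h (iR y')| ≤ |FF h₁ (iR x) - FF h₂ (iR x)| +
          |FF h (iR y) - FF h₁ (iR x)| + |FF h (iR y') - FF h₂ (iR x)| := by
        have e : FF h (iR y) - FF h (iR y') = (FF h₁ (iR x) - FF h₂ (iR x)) +
            (FF h (iR y) - FF h₁ (iR x)) - (FF h (iR y') - FF h₂ (iR x)) := by ring
        rw [e]
        refine (abs_sub _ _).trans ?_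
        have := abs_add_le (FF h₁ (iR x) - FF h₂ (iR x)) (FF h (iR y) - FF h₁ (iR x))
        linarith
      nlinarith
  · intro x hx U hU hxU C hC hcov
    obtain ⟨h₀, hh₀, hconst⟩ := locally_mem' hMc ⟨h, hhM⟩ (fun k => closure (C k))
      (fun k => isClosed_closure)
    -- a value of `h₀` in `U`
    have hUo : IsOpen ((fun h' : Matrix (Fin d) (Fin d) ℝ => FF h' (iR x)) ⁻¹' U) :=
      hU.preimage (continuous_FF (iR x))
    obtain ⟨m, hm0, hmU⟩ : ∃ m : Fin d → ℤ, m ≠ 0 ∧ FF h₀ (iR m) ∈ U := by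
      have h1 : h ∈ closure (Orb h₀) := hrec h₀ hh₀
      exact exists_value_near h1 hx (hU.mem_nhds hxU)
    obtain ⟨k, hk⟩ := hconst m (by
      have h1 := mem_closure_values (g := h) hh₀ hm0 hU hmU
      obtain ⟨k, hk⟩ := Set.mem_iUnion.1 (hcov h1)
      exact Set.mem_iUnion.2 ⟨k, subset_closure hk⟩)
    obtain ⟨W1, hW1, hW1e⟩ := mem_nhdsWithin_iff_exists_mem_nhds_inter.1 hk
    obtain ⟨R, hR, ε, hε, hsc⟩ := scales hd0 hV hν hMdet hMnu hMc hMinv hMmin hh₀ (hloc h₀ hh₀)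
      hm0 hW1
    obtain ⟨η, hη0, hηε, hηgap⟩ := (hC k).closure (R + 1) (by linarith) ε hε
    obtain ⟨h₁, hh₁, h₂, hh₂, hW₁, hW₂, hlo, hup⟩ := hsc η hη0 hηε
    have hc1 : FF h₁ (iR m) ∈ closure (C k) := hW1e ⟨hW₁, hh₁⟩
    have hc2 : FF h₂ (iR m) ∈ closure (C k) := hW1e ⟨hW₂, hh₂⟩
    rcases hηgap _ hc1 _ hc2 with h1 | h1
    · linarith
    · nlinarith

end Pool.Agent.TH314.CSD
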