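import Mathlib
import Pool.Agent.TH314.CSD.Cover
import Pool.Agent.TH314.CSD.Scales
import Pool.Agent.H715R2.Periodic

/-!
# Two products with `d - 1` common factors
-/

set_option autoImplicit false

open Filter Topology Matrix

namespace Pool.Agent.TH314.CSD

open H715R2 Pool.Agent.W241.Lac

variable {d : ℕ}

/-- the set of all matrices with given determinant and lower bound -/
def Bdd (d : ℕ) (V ν : ℝ) : Set (Matrix (Fin d) (Fin d) ℝ) := {h | |h.det| = V ∧ HasNu h ν}

lemma bdd_closed (V ν : ℝ) : IsClosed (Bdd d V ν) := by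
  refine IsClosed.inter ?_ ?_
  · exact isClosed_eq (continuous_abs.comp continuous_det') continuous_const
  · have h1 : {h : Matrix (Fin d) (Fin d) ℝ | HasNu h ν} =
        ⋂ (m : Fin d → ℤ) (_ : m ≠ 0), {h | ν ≤ |FF h (iR m)|} := by
      ext h
      simp [HasNu]
    show IsClosed {h : Matrix (Fin d) (Fin d) ℝ | HasNu h ν}
    rw [h1]
    exact isClosed_iInter fun m => isClosed_iInter fun _ =>
      isClosed_le continuous_const (continuous_abs.comp (continuous_FF _))

lemma bdd_inv (V ν : ℝ) : H715R2.Inv (Bdd d V ν) := by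
  intro h hh a γ ha0 ha1 hγ
  have hmem : Matrix.diagonal a * h * zR γ ∈ Orb h := ⟨a, γ, ha0, ha1, hγ, rfl⟩
  exact ⟨by rw [abs_det_orb hmem]; exact hh.1, hasNu_closure hh.2 (subset_closure hmem)⟩

/-- the stabiliser obtained from a coincidence -/
lemma stab_gen {g : Matrix (Fin d) (Fin d) ℝ} {γ γ' : Matrix (Fin d) (Fin d) ℤ}
    (A A' : Fin d → ℝ) (hA : ∀ i, 0 < A i) (hγ' : IsUnit γ'.det) (a : Fin d → ℝ)
    (heq : diagonal A * g * zR γ = diagonal a * (diagonal A' * g * zR γ')) :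
    g * zR (γ * γ'⁻¹) = diagonal (fun i => (A i)⁻¹ * (a i * A' i)) * g := by
  classical
  have hone : diagonal (fun i => (A i)⁻¹) * diagonal A = 1 := by
    rw [diagonal_mul_diagonal, ← diagonal_one]
    congr 1
    funext i
    exact inv_mul_cancel₀ (hA i).ne'
  have hg : g * zR γ = diagonal (fun i => (A i)⁻¹ * (a i * A' i)) * (g * zR γ') := by
    calc g * zR γ = diagonal (fun i => (A i)⁻¹) * diagonal A * (g * zR γ) := by
          rw [hone, Matrix.one_mul]
      _ = diagonal (fun i => (A i)⁻¹) * (diagonal A * g * zR γ) := by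
          simp only [Matrix.mul_assoc]
      _ = diagonal (fun i => (A i)⁻¹) * (diagonal a * (diagonal A' * g * zR γ')) := by
          rw [heq]
      _ = (diagonal (fun i => (A i)⁻¹) * (diagonal a * diagonal A')) * (g * zR γ') := by
          simp only [Matrix.mul_assoc]
      _ = diagonal (fun i => (A i)⁻¹ * (a i * A' i)) * (g * zR γ') := by
          rw [diagonal_mul_diagonal, diagonal_mul_diagonal]
  rw [zR_mul, ← Matrix.mul_assoc, hg, Matrix.mul_assoc, Matrix.mul_assoc, zR_inv hγ',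
    Matrix.mul_one]

/-- **A form proportional to an integral form and bounded below has a stabiliser with distinct
positive eigenvalues.** -/
theorem exists_stab_of_propInt (hd : 2 ≤ d) {g : Matrix (Fin d) (Fin d) ℝ} (hdet : g.det ≠ 0)
    {ν : ℝ} (hν : 0 < ν) (hnu : HasNu g ν) (hP : PropInt g) :
    ∃ (δ : Matrix (Fin d) (Fin d) ℤ) (c : Fin d → ℝ), IsUnit δ.det ∧ (∀ i, 0 < c i) ∧
      Function.Injective c ∧ g * zR δ = diagonal c * g := by
  classical
  have hd0 : 0 < d := by omega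
  set V := |g.det| with hVdef
  have hV : 0 < V := abs_pos.2 hdet
  obtain ⟨T, hT⟩ : ∃ T : ℝ, (d.factorial : ℝ) * V < (d : ℝ) ^ d * T := by
    refine ⟨(d.factorial : ℝ) * V + 1, ?_⟩
    have h1 : (1 : ℝ) ≤ (d : ℝ) ^ d := one_le_pow₀ (by exact_mod_cast hd0)
    have h2 : 0 ≤ (d.factorial : ℝ) * V := by positivity
    nlinarith
  obtain ⟨R, B, ι, hι, m, W, hB0, hm0, hmB, hWS, hWt, hcov⟩ :=
    exists_cover hd0 hV hν (bdd_closed V ν) (bdd_inv V ν) (fun h hh => hh.1) (fun h hh => hh.2)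
      (S := Set.Ioo (-T) T) isOpen_Ioo (fun h hh => by
        obtain ⟨x, hx, hxT⟩ := mink_prod hd0 V T hV hT h hh.1
        exact ⟨x, hx, abs_lt.1 hxT⟩)
  obtain ⟨θ, hθinj, hθsum, -⟩ := exists_theta hd0 (⟨0, hd0⟩ : Fin d) ⟨1, by omega⟩ (by simp)
  set A : ℕ → Fin d → ℝ := fun n i => Real.exp (n * θ i) with hA
  have hA0 : ∀ n i, 0 < A n i := fun n i => Real.exp_pos _
  have hA1 : ∀ n, ∏ i, A n i = 1 := by
    intro n
    simp only [hA]
    rw [← Real.exp_sum, ← Finset.mul_sum, hθsum, mul_zero, Real.exp_zero]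
  have hgY : g ∈ Bdd d V ν := ⟨rfl, hnu⟩
  have hpl : ∀ n, diagonal (A n) * g ∈ Bdd d V ν := by
    intro n
    have := bdd_inv V ν g hgY (A n) 1 (hA0 n) (hA1 n) (by simp)
    rwa [zR_one, Matrix.mul_one] at this
  choose γ hγ hγR k hk using fun n : ℕ => hcov _ (hpl n)
  -- finitely many values
  obtain ⟨c₀, hc₀, hz⟩ := values_of_propInt hP
  set D : Set ℝ := (fun z : ℤ => c₀ * (z : ℝ)) '' {z : ℤ | |c₀ * (z : ℝ)| < T} with hD
  have hDfin : D.Finite := by
    refine Set.Finite.image _ ?_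
    refine (Set.finite_Icc (-⌈T / |c₀|⌉) ⌈T / |c₀|⌉).subset ?_
    intro z hz
    have h1 : |c₀ * (z : ℝ)| < T := hz
    rw [abs_mul] at h1
    have h2 : |(z : ℝ)| ≤ ⌈T / |c₀|⌉ := by
      refine le_trans ?_ (Int.le_ceil _)
      rw [le_div_iff₀ (abs_pos.2 hc₀)]
      linarith
    have h3 : |z| ≤ ⌈T / |c₀|⌉ := by exact_mod_cast h2
    exact abs_le.1 h3
  have : Finite D := hDfin.to_subtype
  have hvalD : ∀ (n : ℕ) (p : Fin d × Fin d),
      FF (diagonal (A n) * g * zR (γ n)) (iR (m (k n) p)) ∈ D := by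
    intro n p
    have h1 := hWS (k n) _ (hk n) p
    rw [FF_orb (hA1 n)] at h1 ⊢
    obtain ⟨z, hz⟩ := hz (γ n *ᵥ m (k n) p)
    rw [hz] at h1 ⊢
    exact ⟨z, abs_lt.2 h1, rfl⟩
  let cf : ℕ → ι × ((Fin d × Fin d) → D) := fun n =>
    (k n, fun p => ⟨FF (diagonal (A n) * g * zR (γ n)) (iR (m (k n) p)), hvalD n p⟩)
  obtain ⟨b, hb⟩ := Finite.exists_infinite_fiber cf
  have hbinf : (cf ⁻¹' {b}).Infinite := Set.infinite_coe_iff.1 hb
  obtain ⟨K, hK⟩ : ∃ K : ℕ, ∀ i j : Fin d, 2 / |θ i - θ j| ≤ K := by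
    obtain ⟨K, hK⟩ := exists_nat_ge (∑ p : Fin d × Fin d, 2 / |θ p.1 - θ p.2|)
    refine ⟨K, fun i j => le_trans ?_ hK⟩
    exact Finset.single_le_sum (f := fun p : Fin d × Fin d => 2 / |θ p.1 - θ p.2|)
      (fun p _ => by positivity) (Finset.mem_univ (i, j))
  obtain ⟨n, hn⟩ := hbinf.nonempty
  obtain ⟨n', hn', hnn'⟩ := hbinf.exists_gt (n + K)
  have hcf : cf n = cf n' := by
    have h1 : cf n = b := hn
    have h2 : cf n' = b := hn'
    rw [h1, h2]
  have hk' : k n = k n' := congrArg Prod.fst hcf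
  have hv : ∀ p : Fin d × Fin d,
      FF (diagonal (A n) * g * zR (γ n)) (iR (m (k n) p)) =
      FF (diagonal (A n') * g * zR (γ n')) (iR (m (k n) p)) := by
    intro p
    have h1 := congrArg Subtype.val (congrFun (congrArg Prod.snd hcf) p)
    simp only [cf] at h1
    rw [h1, hk']
  have hdets : ∀ u, |(diagonal (A u) * g * zR (γ u)).det| = V := by
    intro u
    rw [det_mul, abs_mul, det_zR, abs_det_of_isUnit (hγ u), mul_one]
    exact (hpl u).1
  obtain ⟨a, ha1, ha2, ha⟩ := hWt (k n) _ (by rw [hk']; exact hk n') _ (hk n)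
    (by rw [hdets, hdets]) (fun p _ => (hv p).symm)
  refine ⟨γ n * (γ n')⁻¹, fun i => (A n i)⁻¹ * (a i * A n' i), ?_, ?_, ?_,
    stab_gen (A n) (A n') (hA0 n) (hγ n') a ha⟩
  · rw [det_mul]
    refine (hγ n).mul ?_
    have h1 := Matrix.mul_nonsing_inv _ (hγ n')
    have h2 := congrArg Matrix.det h1
    rw [det_mul, det_one] at h2
    exact IsUnit.of_mul_eq_one_right _ h2
  · intro i
    have h1 := ha1 i
    have h2 := hA0 n i
    have h3 := hA0 n' i
    have h4 : 0 < a i := by linarith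
    positivity
  · have hci : ∀ i, (A n i)⁻¹ * (a i * A n' i) = a i * Real.exp (((n' : ℝ) - n) * θ i) := by
      intro i
      simp only [hA]
      rw [← Real.exp_neg]
      have h2 : Real.exp (-((n : ℝ) * θ i)) * (a i * Real.exp ((n' : ℝ) * θ i)) =
          a i * (Real.exp (-((n : ℝ) * θ i)) * Real.exp ((n' : ℝ) * θ i)) := by ring
      rw [h2, ← Real.exp_add]
      congr 2
      ring
    have hkey : ∀ i j, θ i < θ j → (A n i)⁻¹ * (a i * A n' i) ≠ (A n j)⁻¹ * (a j * A n' j) := by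
      intro i j hij h
      rw [hci, hci] at h
      have h4 : Real.exp (((n' : ℝ) - n) * θ j) =
          Real.exp (((n' : ℝ) - n) * (θ j - θ i)) * Real.exp (((n' : ℝ) - n) * θ i) := by
        rw [← Real.exp_add]
        congr 1
        ring
      rw [h4] at h
      have h5 : a i = a j * Real.exp (((n' : ℝ) - n) * (θ j - θ i)) := by
        have h6 : a i * Real.exp (((n' : ℝ) - n) * θ i) =
            (a j * Real.exp (((n' : ℝ) - n) * (θ j - θ i))) * Real.exp (((n' : ℝ) - n) * θ i) := by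
          linarith
        exact mul_right_cancel₀ (Real.exp_pos _).ne' h6
      have h6 : (4 : ℝ) < Real.exp (((n' : ℝ) - n) * (θ j - θ i)) := by
        have h7 : 2 ≤ ((n' : ℝ) - n) * (θ j - θ i) := by
          have h8 : (K : ℝ) ≤ (n' : ℝ) - n := by
            have : (n : ℝ) + K < n' := by exact_mod_cast hnn'
            linarith
          have h9 := hK j i
          have h10 : 0 < θ j - θ i := by linarith
          rw [abs_of_pos h10, div_le_iff₀ h10] at h9
          nlinarith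
        have h8 : Real.exp 2 ≤ Real.exp (((n' : ℝ) - n) * (θ j - θ i)) := Real.exp_le_exp.2 h7
        have h9 : Real.exp 2 = Real.exp 1 * Real.exp 1 := by
          rw [← Real.exp_add]; norm_num
        have h10 := Real.exp_one_gt_d9
        nlinarith
      nlinarith [ha1 i, ha2 i, ha1 j, ha2 j]
    intro i j hij
    by_contra hne
    rcases lt_or_gt_of_ne (fun h => hne (hθinj h) : θ i ≠ θ j) with h | h
    · exact hkey i j h hij
    · exact hkey j i h hij.symm

lemma zR_pow (δ : Matrix (Fin d) (Fin d) ℤ) (n : ℕ) : zR (δ ^ n) = zR δ ^ n := by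
  induction n with
  | zero => rw [pow_zero, pow_zero, zR_one]
  | succ n ih => rw [pow_succ, pow_succ, zR_mul, ih]

lemma not_propInt_aux (hd : 3 ≤ d) {g : Matrix (Fin d) (Fin d) ℝ} (hdet : g.det ≠ 0)
    {ν : ℝ} (hν : 0 < ν) (hnu : HasNu g ν) {i j : Fin d} (hij : i ≠ j) {s : ℝ} (hs : s ≠ 0)
    (hnu' : HasNu ((1 + Matrix.of (sg i j s)) * g) ν) {δ : Matrix (Fin d) (Fin d) ℤ}
    {c : Fin d → ℝ} (hδu : IsUnit δ.det) (hc0 : ∀ i, 0 < c i) (hcinj : Function.Injective c)
    (hδ : g * zR δ = diagonal c * g) (hcij : c j < c i) : False := by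
  classical
  have hd0 : 0 < d := by omega
  set g' := (1 + Matrix.of (sg i j s)) * g with hg'
  -- the product of the eigenvalues
  have hc1 : ∏ k, c k = 1 := by
    have h1 := congrArg Matrix.det hδ
    rw [det_mul, det_mul, det_diagonal, mul_comm] at h1
    have h2 := mul_right_cancel₀ hdet h1
    rw [det_zR] at h2
    have h3 := abs_det_of_isUnit hδu
    rw [h2, abs_of_pos (Finset.prod_pos fun k _ => hc0 k)] at h3
    exact h3
  set r : ℝ := c j / c i with hr
  have hr0 : 0 < r := div_pos (hc0 j) (hc0 i)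
  have hr1 : r < 1 := (div_lt_one (hc0 i)).2 hcij
  set a : ℕ → Fin d → ℝ := fun n k => (c k ^ n)⁻¹ with ha
  have ha0 : ∀ n k, 0 < a n k := fun n k => inv_pos.2 (pow_pos (hc0 k) n)
  have ha1 : ∀ n, ∏ k, a n k = 1 := by
    intro n
    simp only [ha]
    rw [Finset.prod_inv_distrib, Finset.prod_pow, hc1, one_pow, inv_one]
  have hδn : ∀ n, IsUnit (δ ^ n).det := fun n => by
    rw [det_pow]; exact hδu.pow n
  have hpow : ∀ n, g * zR (δ ^ n) = diagonal (fun k => c k ^ n) * g := by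
    intro n
    have hs : SemiconjBy g (zR δ) (diagonal c) := hδ
    have h1 := (hs.pow_right n).eq
    rw [zR_pow, h1, diagonal_pow]
    rfl
  set x : ℕ → Matrix (Fin d) (Fin d) ℝ := fun n => diagonal (a n) * g' * zR (δ ^ n) with hx
  have hxn : ∀ n, x n = (1 + Matrix.of (sg i j (s * r ^ n))) * g := by
    intro n
    have h1 : diagonal (a n) * diagonal (fun k => c k ^ n) = 1 := by
      rw [diagonal_mul_diagonal, ← diagonal_one]
      congr 1
      funext k
      exact inv_mul_cancel₀ (pow_pos (hc0 k) n).ne'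
    have h2 : cj (a n) (sg i j s) = sg i j (s * r ^ n) := by
      rw [cj_sg]
      congr 1
      simp only [ha, hr]
      rw [div_pow]
      have := (pow_pos (hc0 i) n).ne'
      have := (pow_pos (hc0 j) n).ne'
      field_simp
    calc x n = (diagonal (a n) * (1 + Matrix.of (sg i j s))) * (g * zR (δ ^ n)) := by
          simp only [hx, hg', Matrix.mul_assoc]
      _ = ((1 + Matrix.of (cj (a n) (sg i j s))) * diagonal (a n)) *
            (diagonal (fun k => c k ^ n) * g) := by rw [← cj_mul (ha0 n), hpow]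
      _ = (1 + Matrix.of (cj (a n) (sg i j s))) *
            ((diagonal (a n) * diagonal (fun k => c k ^ n)) * g) := by
          simp only [Matrix.mul_assoc]
      _ = _ := by rw [h1, Matrix.one_mul, h2]
  have hrn : Tendsto (fun n : ℕ => r ^ n) atTop (𝓝 0) :=
    tendsto_pow_atTop_nhds_zero_of_lt_one hr0.le hr1
  have hlim : Tendsto x atTop (𝓝 g) := by
    have hcont : Continuous (fun t : ℝ =>
        ((1 : Matrix (Fin d) (Fin d) ℝ) + Matrix.of (sg i j t)) * g) := by
      have h1 : Continuous (fun t : ℝ => (Matrix.of (sg i j t) : Matrix (Fin d) (Fin d) ℝ)) := by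
        refine continuous_matrix fun k l => ?_
        simp only [Matrix.of_apply, sg]
        split_ifs
        · exact continuous_id
        · exact continuous_const
      exact (continuous_const.add h1).matrix_mul continuous_const
    have h1 : Tendsto (fun n : ℕ => s * r ^ n) atTop (𝓝 0) := by
      have := hrn.const_mul s
      rwa [mul_zero] at this
    have h2 := (hcont.tendsto 0).comp h1
    have h3 : ((1 : Matrix (Fin d) (Fin d) ℝ) + Matrix.of (sg i j 0)) * g = g := by
      have h4 : ((1 : Matrix (Fin d) (Fin d) ℝ) + Matrix.of (sg i j 0)) = 1 := by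
        ext k l
        simp [sg]
      rw [h4, Matrix.one_mul]
    rw [h3] at h2
    refine h2.congr fun n => ?_
    simp only [Function.comp]
    exact (hxn n).symm
  have hmem : g ∈ closure (Orb g') := by
    refine mem_closure_of_tendsto hlim (Eventually.of_forall fun n => ?_)
    exact ⟨a n, δ ^ n, ha0 n, ha1 n, hδn n, rfl⟩
  have hdet' : g'.det ≠ 0 := by
    intro h0
    have := abs_det_closure hmem
    rw [h0, abs_zero] at this
    exact hdet (abs_eq_zero.1 this)
  obtain ⟨K, hfin, hK, s', hs', hmemK⟩ := exists_alg_row hdet δ c hcinj hδ ⟨0, hd0⟩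
  rcases limit_alg hd hdet' hmem ⟨0, hd0⟩ s' hs' K hK hmemK with ⟨y, hy, hy0⟩ | hint | hdense
  · have h1 := hnu y hy
    have h2 : FF g (iR y) = 0 := by
      rw [FF]
      exact Finset.prod_eq_zero (Finset.mem_univ ⟨0, hd0⟩) hy0
    rw [h2, abs_zero] at h1
    exact absurd h1 (not_le.2 hν)
  · -- the values of `g'` are not discrete
    obtain ⟨c', hc', hz⟩ := values_of_propInt hint
    set m : Fin d → ℤ := fun _ => 1 with hm
    have hm0 : m ≠ 0 := fun h => one_ne_zero (congrFun h ⟨0, hd0⟩)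
    have hz0 : ∀ k, (g *ᵥ iR m) k ≠ 0 := by
      intro k hk
      have h1 := hnu m hm0
      rw [FF_eq, Finset.prod_eq_zero (Finset.mem_univ k) hk, abs_zero] at h1
      exact absurd h1 (not_le.2 hν)
    set G : ℝ := (g *ᵥ iR m) j * ∏ k ∈ Finset.univ.erase i, (g *ᵥ iR m) k with hG
    have hG0 : G ≠ 0 := mul_ne_zero (hz0 j) (Finset.prod_ne_zero_iff.2 fun k _ => hz0 k)
    have hval : ∀ n : ℕ, ∃ z : ℤ, FF g (iR m) + s * r ^ n * G = c' * z := by
      intro n
      obtain ⟨z, hz⟩ := hz (δ ^ n *ᵥ m)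
      refine ⟨z, ?_⟩
      rw [← hz, ← FF_orb (ha1 n)]
      show _ = FF (x n) (iR m)
      rw [hxn, FF_sg]
    choose z hz using hval
    have hdiff : ∀ n : ℕ, s * r ^ n * (1 - r) * G = c' * ((z n - z (n + 1) : ℤ) : ℝ) := by
      intro n
      have h1 := hz n
      have h2 := hz (n + 1)
      push_cast
      linear_combination h1 - h2
    have hne : ∀ n : ℕ, |c'| ≤ |s * r ^ n * (1 - r) * G| := by
      intro n
      have h1 : s * r ^ n * (1 - r) * G ≠ 0 := by
        refine mul_ne_zero (mul_ne_zero (mul_ne_zero hs (pow_pos hr0 n).ne') ?_) hG0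
        linarith
      rw [hdiff, abs_mul]
      rw [hdiff] at h1
      have h2 : (z n - z (n + 1) : ℤ) ≠ 0 := by
        intro h0
        rw [h0] at h1
        simp at h1
      have h3 : (1 : ℝ) ≤ |((z n - z (n + 1) : ℤ) : ℝ)| := by
        have := Int.one_le_abs h2
        exact_mod_cast this
      nlinarith [abs_nonneg c']
    have hlim0 : Tendsto (fun n : ℕ => |s * r ^ n * (1 - r) * G|) atTop (𝓝 0) := by
      have h1 := (((hrn.const_mul s).mul_const (1 - r)).mul_const G).abs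
      simpa using h1
    have h1 := ge_of_tendsto' hlim0 hne
    have h2 := abs_pos.2 hc'
    linarith
  · obtain ⟨y, hy, hy2⟩ := dense_ne hd0 hdense 0 ν hν
    rw [sub_zero] at hy2
    exact absurd (hnu' y hy) (not_le.2 hy2)

/-- **Two products.** If `g` and `(1 + s E_ij) g` are both bounded below, then `g` is not
proportional to an integral form. -/
theorem not_propInt_pair (hd : 3 ≤ d) {g : Matrix (Fin d) (Fin d) ℝ} (hdet : g.det ≠ 0)
    {ν : ℝ} (hν : 0 < ν) (hnu : HasNu g ν) {i j : Fin d} (hij : i ≠ j) {s : ℝ} (hs : s ≠ 0)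
    (hnu' : HasNu ((1 + Matrix.of (sg i j s)) * g) ν) : ¬ PropInt g := by
  intro hP
  obtain ⟨δ, c, hδu, hc0, hcinj, hδ⟩ := exists_stab_of_propInt (by omega) hdet hν hnu hP
  have hne : c i ≠ c j := fun h => hij (hcinj h)
  rcases lt_or_gt_of_ne hne with h | h
  · -- pass to the inverse
    have hδ' : g * zR δ⁻¹ = diagonal (fun k => (c k)⁻¹) * g := by
      have hone : diagonal (fun k => (c k)⁻¹) * diagonal c = 1 := by
        rw [diagonal_mul_diagonal, ← diagonal_one]
        congr 1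
        funext k
        exact inv_mul_cancel₀ (hc0 k).ne'
      calc g * zR δ⁻¹ = (diagonal (fun k => (c k)⁻¹) * diagonal c) * (g * zR δ⁻¹) := by
            rw [hone, Matrix.one_mul]
        _ = diagonal (fun k => (c k)⁻¹) * ((diagonal c * g) * zR δ⁻¹) := by
            simp only [Matrix.mul_assoc]
        _ = diagonal (fun k => (c k)⁻¹) * (g * (zR δ * zR δ⁻¹)) := by
            rw [← hδ, Matrix.mul_assoc]
        _ = _ := by rw [zR_inv hδu, Matrix.mul_one]
    refine not_propInt_aux hd hdet hν hnu hij hs hnu' (δ := δ⁻¹) (c := fun k => (c k)⁻¹) ?_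
      (fun k => inv_pos.2 (hc0 k)) ?_ hδ' ?_
    · have h1 := Matrix.mul_nonsing_inv _ hδu
      have h2 := congrArg Matrix.det h1
      rw [det_mul, det_one] at h2
      exact IsUnit.of_mul_eq_one_right _ h2
    · intro k l hkl
      exact hcinj (inv_injective hkl)
    · exact inv_strictAnti₀ (hc0 i) h
  · exact not_propInt_aux hd hdet hν hnu hij hs hnu' hδu hc0 hcinj hδ h

/-- the values of a matrix in a minimal set at nonzero integer points have a common closure -/
lemma closure_values_eq {M : Set (Matrix (Fin d) (Fin d) ℝ)} (hMc : IsClosed M)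
    (hMinv : H715R2.Inv M)
    (hMmin : ∀ Z ⊆ M, IsClosed Z → Z.Nonempty → H715R2.Inv Z → Z = M)
    {h h' : Matrix (Fin d) (Fin d) ℝ} (hh : h ∈ M) (hh' : h' ∈ M) :
    closure {t : ℝ | ∃ y : Fin d → ℤ, y ≠ 0 ∧ FF h (iR y) = t} ⊆
      closure {t : ℝ | ∃ y : Fin d → ℤ, y ≠ 0 ∧ FF h' (iR y) = t} := by
  refine closure_minimal ?_ isClosed_closure
  rintro t ⟨y, hy, rfl⟩
  have h1 : h ∈ closure (Orb h') := by rw [closure_orb_eq hMc hMinv hMmin hh']; exact hh
  have h2 := mem_closure_values h1 hy isOpen_univ (Set.mem_univ _)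
  refine closure_mono ?_ h2
  rintro t ⟨z, hz, hz2, -⟩
  exact ⟨z, hz, hz2⟩

/-- **A counterexample yields a pair.** -/
theorem exists_pair (hd : 3 ≤ d) {g : Matrix (Fin d) (Fin d) ℝ} (hg : g.det ≠ 0) {ν : ℝ}
    (hν : 0 < ν) (hnu : HasNu g ν) (hint : ¬ PropInt g) :
    ∃ h ∈ closure (Orb g), ∃ (i j : Fin d) (s : ℝ), i ≠ j ∧ s ≠ 0 ∧
      (1 + Matrix.of (sg i j s)) * h ∈ closure (Orb g) ∧
      closure {t : ℝ | ∃ y : Fin d → ℤ, y ≠ 0 ∧ FF h (iR y) = t} =
      closure {t : ℝ | ∃ y : Fin d → ℤ, y ≠ 0 ∧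
        FF ((1 + Matrix.of (sg i j s)) * h) (iR y) = t} := by
  have hd0 : 0 < d := by omega
  obtain ⟨M, hMg, hMc, hMne, hMinv, hMmin⟩ := exists_minimal hd0 hν hg hnu
  obtain ⟨h₀, hh₀⟩ := hMne
  have hloc := not_loc hd hg hν hnu hint hMg hMc hMinv hMmin hh₀
  have hMdet : ∀ h' ∈ M, |h'.det| = |g.det| := fun h' hh' => abs_det_closure (hMg hh')
  have hMnu : ∀ h' ∈ M, HasNu h' ν := fun h' hh' => hasNu_closure hnu (hMg hh')
  have hV : 0 < |g.det| := abs_pos.2 hg
  obtain ⟨θ, -, h₁, X, hX0, hXup, hP⟩ :=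
    exists_upper hd0 hV hν hMdet hMnu hMc hMinv hh₀ hloc
  obtain ⟨h₂, i, j, s, hij, hs, hP₂⟩ := exists_single hd0 hV hν hMdet hMnu hMc hMinv θ _ h₁ X hX0
    hXup hP le_rfl
  have hP₂' : Pr M 1 h₂ (sg i j s) := hP₂
  obtain ⟨hhM, -, hh'M⟩ := hP₂'
  rw [one_smul] at hh'M
  exact ⟨h₂, hMg hhM, i, j, s, hij, hs, hMg hh'M,
    subset_antisymm (closure_values_eq hMc hMinv hMmin hhM hh'M)
      (closure_values_eq hMc hMinv hMmin hh'M hhM)⟩

end Pool.Agent.TH314.CSD
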