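import Mathlib
import Pool.Agent.TH314.CSD.Scales

/-!
# Recurrent limit forms which attain their minimum
-/

set_option autoImplicit false

open Filter Topology Matrix

namespace Pool.Agent.TH314.CSD

open H715R2 Pool.Agent.W241.Lac

variable {d : ℕ}

lemma det_ne {h : Matrix (Fin d) (Fin d) ℝ} {V : ℝ} (hV : 0 < V) (hdet : |h.det| = V) :
    h.det ≠ 0 := by
  intro h0
  rw [h0, abs_zero] at hdet
  exact hV.ne hdet

/-- entries of inverses are bounded on boxes with fixed determinant -/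
lemma inv_bound (R V : ℝ) (hV : 0 < V) : ∃ D : ℝ, 0 ≤ D ∧ ∀ h : Matrix (Fin d) (Fin d) ℝ,
    |h.det| = V → (∀ i j, |h i j| ≤ R) → ∀ i j, |h⁻¹ i j| ≤ D := by
  classical
  have h1 : ∀ p : Fin d × Fin d, ∃ C : ℝ, ∀ h : Matrix (Fin d) (Fin d) ℝ, (∀ i j, |h i j| ≤ R) →
      |h.adjugate p.1 p.2| ≤ C := by
    intro p
    have hc : Continuous (fun h : Matrix (Fin d) (Fin d) ℝ => h.adjugate p.1 p.2) :=
      (continuous_apply_apply p.1 p.2).comp (Continuous.matrix_adjugate continuous_id)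
    obtain ⟨C, hC⟩ := (isCompact_box (d := d) R).exists_bound_of_continuousOn hc.continuousOn
    exact ⟨C, fun h hh => hC h hh⟩
  choose C hC using h1
  refine ⟨∑ p, |C p| / V, Finset.sum_nonneg fun p _ => by positivity, fun h hdet hh i j => ?_⟩
  have h2 : h⁻¹ i j = (h.det)⁻¹ * h.adjugate i j := by
    rw [Matrix.inv_def, Ring.inverse_eq_inv', Matrix.smul_apply, smul_eq_mul]
  rw [h2, abs_mul, abs_inv, hdet]
  have h3 : |h.adjugate i j| ≤ |C (i, j)| := (hC (i, j) h hh).trans (le_abs_self _)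
  have h4 : |C (i, j)| / V ≤ ∑ p, |C p| / V :=
    Finset.single_le_sum (f := fun p => |C p| / V) (fun p _ => by positivity)
      (Finset.mem_univ (i, j))
  refine le_trans ?_ h4
  rw [inv_mul_eq_div]
  exact div_le_div_of_nonneg_right h3 hV.le

/-- balancing a vector by a diagonal matrix -/
lemma exists_balance (hd : 0 < d) (z : Fin d → ℝ) (hz : ∀ i, z i ≠ 0) :
    ∃ a : Fin d → ℝ, (∀ i, 0 < a i) ∧ ∏ i, a i = 1 ∧
      ∀ i, a i * |z i| = (∏ i, |z i|) ^ ((1 : ℝ) / d) := by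
  have hP : 0 < ∏ i, |z i| := Finset.prod_pos fun i _ => abs_pos.2 (hz i)
  set c : ℝ := (∏ i, |z i|) ^ ((1 : ℝ) / d) with hc
  have hc0 : 0 < c := Real.rpow_pos_of_pos hP _
  have hdR : (0 : ℝ) < d := by exact_mod_cast hd
  have hcd : c ^ d = ∏ i, |z i| := by
    rw [hc, ← Real.rpow_natCast, ← Real.rpow_mul hP.le, one_div, inv_mul_cancel₀ hdR.ne',
      Real.rpow_one]
  refine ⟨fun i => c / |z i|, fun i => div_pos hc0 (abs_pos.2 (hz i)), ?_, fun i => ?_⟩
  · rw [Finset.prod_div_distrib, Finset.prod_const, Finset.card_univ, Fintype.card_fin, hcd]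
    exact div_self hP.ne'
  · exact div_mul_cancel₀ _ (abs_pos.2 (hz i)).ne'

lemma vec_ne_zero {γ : Matrix (Fin d) (Fin d) ℤ} (hγ : IsUnit γ.det) {m : Fin d → ℤ}
    (hm : m ≠ 0) : γ⁻¹ *ᵥ m ≠ 0 := by
  intro h0
  apply hm
  have h3 : γ *ᵥ (γ⁻¹ *ᵥ m) = 0 := by rw [h0, mulVec_zero]
  rwa [mulVec_mulVec, Matrix.mul_nonsing_inv _ hγ, one_mulVec] at h3

/-- limits of integer vectors are integer vectors -/
lemma limit_integral {k : ℕ → Fin d → ℤ} {κ : Fin d → ℝ}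
    (h : Tendsto (fun n => iR (k n)) atTop (𝓝 κ)) : ∃ q : Fin d → ℤ, κ = iR q := by
  have h1 : ∀ i, ∃ q : ℤ, (q : ℝ) = κ i := by
    intro i
    have h2 : Tendsto (fun n => ((k n i : ℤ) : ℝ)) atTop (𝓝 (κ i)) := (tendsto_pi_nhds.1 h) i
    have h3 : κ i ∈ Set.range (Int.cast : ℤ → ℝ) :=
      Int.isClosedEmbedding_coe_real.isClosed_range.mem_of_tendsto h2
        (Eventually.of_forall fun n => ⟨k n i, rfl⟩)
    exact h3
  choose q hq using h1
  exact ⟨q, funext fun i => (hq i).symm⟩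

theorem exists_recurrent_attained (hd : 0 < d) {g : Matrix (Fin d) (Fin d) ℝ} {ν : ℝ} (hν : 0 < ν)
    (hg : g.det ≠ 0) (hnu : HasNu g ν) :
    ∃ h ∈ closure (Orb g), Recurrent h ∧ ∃ x₀ : Fin d → ℤ, x₀ ≠ 0 ∧
      ∀ x : Fin d → ℤ, x ≠ 0 → |FF h (iR x₀)| ≤ |FF h (iR x)| := by
  classical
  obtain ⟨M, hMg, hMc, hMne, hMinv, hMmin⟩ := exists_minimal hd hν hg hnu
  obtain ⟨h₁, hh₁⟩ := hMne
  set V := |g.det| with hV
  have hV0 : 0 < V := abs_pos.2 hg
  have hMdet : ∀ h ∈ M, |h.det| = V := fun h hh => abs_det_closure (hMg hh)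
  have hMnu : ∀ h ∈ M, HasNu h ν := fun h hh => hasNu_closure hnu (hMg hh)
  set μ := nuInf h₁ with hμ
  have hμle : ∀ h ∈ M, μ ≤ nuInf h := by
    intro h hh
    apply nuInf_le_of_mem_closure hd
    rw [closure_orb_eq hMc hMinv hMmin hh₁]
    exact hh
  have hne := nonempty_ne hd
  have hlow : ∀ h ∈ M, ∀ x : Fin d → ℤ, x ≠ 0 → μ ≤ |FF h (iR x)| := fun h hh x hx =>
    (hμle h hh).trans (ciInf_le (nuInf_bdd h) ⟨x, hx⟩)
  have hseq : ∀ n : ℕ, ∃ m : Fin d → ℤ, m ≠ 0 ∧ |FF h₁ (iR m)| < μ + 1 / ((n : ℝ) + 1) := by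
    intro n
    have h1 : nuInf h₁ < μ + 1 / ((n : ℝ) + 1) := by
      rw [← hμ]
      have : 0 < 1 / ((n : ℝ) + 1) := by positivity
      linarith
    obtain ⟨x, hx⟩ := exists_lt_of_ciInf_lt h1
    exact ⟨x.1, x.2, hx⟩
  choose m hm0 hm1 using hseq
  have hz : ∀ n i, (h₁ *ᵥ iR (m n)) i ≠ 0 := by
    intro n i hi
    have h1 := hMnu _ hh₁ (m n) (hm0 n)
    rw [FF_eq, Finset.prod_eq_zero (Finset.mem_univ i) hi, abs_zero] at h1
    exact absurd h1 (not_le.2 hν)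
  choose a ha0 ha1 ha2 using fun n => exists_balance hd (h₁ *ᵥ iR (m n)) (hz n)
  obtain ⟨R, hR⟩ := exists_bound hd V ν hV0 hν
  have haM : ∀ n, diagonal (a n) * h₁ ∈ M := by
    intro n
    have := hMinv h₁ hh₁ (a n) 1 (ha0 n) (ha1 n) (by simp)
    rwa [zR_one, Matrix.mul_one] at this
  choose γ hγ hγR using fun n => hR _ (hMdet _ (haM n)) (hMnu _ (haM n))
  set x : ℕ → Matrix (Fin d) (Fin d) ℝ := fun n => diagonal (a n) * h₁ * zR (γ n) with hx
  have hxM : ∀ n, x n ∈ M := fun n => hMinv h₁ hh₁ (a n) (γ n) (ha0 n) (ha1 n) (hγ n)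
  set k : ℕ → Fin d → ℤ := fun n => (γ n)⁻¹ *ᵥ m n with hk
  have hk0 : ∀ n, k n ≠ 0 := fun n => vec_ne_zero (hγ n) (hm0 n)
  have hγk : ∀ n, γ n *ᵥ k n = m n := by
    intro n
    simp only [hk]
    rw [mulVec_mulVec, Matrix.mul_nonsing_inv _ (hγ n), one_mulVec]
  have hxk : ∀ n, x n *ᵥ iR (k n) = diagonal (a n) *ᵥ (h₁ *ᵥ iR (m n)) := by
    intro n
    simp only [hx]
    rw [← mulVec_mulVec, zR_mulVec_iR, hγk, ← mulVec_mulVec]
  set C : ℝ := (μ + 1) ^ ((1 : ℝ) / d) with hC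
  have hxkC : ∀ n i, |(x n *ᵥ iR (k n)) i| ≤ C := by
    intro n i
    rw [hxk, mulVec_diagonal, abs_mul, abs_of_pos (ha0 n i), ha2 n i]
    have h1 : ∏ i, |(h₁ *ᵥ iR (m n)) i| = |FF h₁ (iR (m n))| := by
      rw [FF_eq, Finset.abs_prod]
    rw [h1, hC]
    apply Real.rpow_le_rpow (abs_nonneg _) _ (by positivity)
    have h2 := (hm1 n).le
    have h3 : 1 / ((n : ℝ) + 1) ≤ 1 := by
      rw [div_le_one (by positivity)]
      have : (0 : ℝ) ≤ n := Nat.cast_nonneg n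
      linarith
    linarith
  obtain ⟨D, hD0, hD⟩ := inv_bound (d := d) R V hV0
  have hkb : ∀ n i, |iR (k n) i| ≤ ∑ _j : Fin d, D * C := by
    intro n i
    have hu : IsUnit (x n).det := isUnit_iff_ne_zero.2 (det_ne hV0 (hMdet _ (hxM n)))
    have h1 : iR (k n) = (x n)⁻¹ *ᵥ (x n *ᵥ iR (k n)) := by
      rw [mulVec_mulVec, Matrix.nonsing_inv_mul _ hu, one_mulVec]
    rw [h1, mulVec, dotProduct]
    refine (Finset.abs_sum_le_sum_abs _ _).trans (Finset.sum_le_sum fun j _ => ?_)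
    rw [abs_mul]
    exact mul_le_mul (hD _ (hMdet _ (hxM n)) (hγR n) i j) (hxkC n j) (abs_nonneg _) hD0
  set L : ℝ := ∑ _j : Fin d, D * C with hL
  have hcpt1 := isCompact_box (d := d) R
  obtain ⟨h, -, φ, hφ, hlim⟩ := hcpt1.tendsto_subseq hγR
  have hcpt2 : IsCompact (Set.pi Set.univ fun _ : Fin d => Set.Icc (-L) L) :=
    isCompact_univ_pi fun _ => isCompact_Icc
  obtain ⟨κ, -, ψ, hψ, hlim2⟩ := hcpt2.tendsto_subseq (x := fun n => iR (k (φ n)))
    (fun n i _ => abs_le.1 (hkb (φ n) i))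
  have hlim1 : Tendsto (fun n => x (φ (ψ n))) atTop (𝓝 h) := hlim.comp hψ.tendsto_atTop
  have hhM : h ∈ M := hMc.mem_of_tendsto hlim (Eventually.of_forall fun n => hxM _)
  obtain ⟨q, hq⟩ := limit_integral (k := fun n => k (φ (ψ n))) hlim2
  have hq0 : q ≠ 0 := by
    intro h0
    have h1 : Tendsto (fun n => iR (k (φ (ψ n)))) atTop (𝓝 0) := by
      have h2 : κ = 0 := by
        rw [hq, h0]
        funext i
        simp [iR]
      rw [← h2]
      exact hlim2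
    have h2 : ∀ᶠ n in atTop, ∀ i, |iR (k (φ (ψ n))) i| < 1 := by
      refine Filter.eventually_all.2 fun i => ?_
      have h3 := ((tendsto_pi_nhds.1 h1) i).abs
      simp only [Pi.zero_apply, abs_zero] at h3
      exact h3.eventually (gt_mem_nhds one_pos)
    obtain ⟨n, hn⟩ := h2.exists
    apply hk0 (φ (ψ n))
    funext i
    have h3 := hn i
    simp only [iR] at h3
    have h4 : |k (φ (ψ n)) i| < 1 := by exact_mod_cast h3
    exact Int.abs_lt_one_iff.1 h4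
  have hcont : Continuous (fun p : Matrix (Fin d) (Fin d) ℝ × (Fin d → ℝ) => FF p.1 p.2) := by
    unfold FF
    refine continuous_finsetProd _ fun i _ => continuous_finsetSum _ fun j _ => ?_
    exact ((continuous_apply_apply i j).comp continuous_fst).mul
      ((continuous_apply j).comp continuous_snd)
  have hval : Tendsto (fun n => |FF (x (φ (ψ n))) (iR (k (φ (ψ n))))|) atTop
      (𝓝 |FF h (iR q)|) := by
    have h1 := (hcont.tendsto (h, κ)).comp (hlim1.prodMk_nhds hlim2)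
    rw [← hq]
    exact h1.abs
  have hval2 : ∀ n, |FF (x n) (iR (k n))| = |FF h₁ (iR (m n))| := by
    intro n
    simp only [hx]
    rw [FF_orb (ha1 n), hγk]
  have hle : |FF h (iR q)| ≤ μ := by
    have h1 : Tendsto (fun n : ℕ => μ + 1 / (((φ (ψ n) : ℕ) : ℝ) + 1)) atTop (𝓝 (μ + 0)) := by
      refine tendsto_const_nhds.add ?_
      exact (tendsto_one_div_add_atTop_nhds_zero_nat).comp
        (hφ.tendsto_atTop.comp hψ.tendsto_atTop)
    rw [add_zero] at h1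
    refine le_of_tendsto_of_tendsto' hval h1 fun n => ?_
    rw [hval2]
    exact (hm1 _).le
  refine ⟨h, hMg hhM, recurrent_of_minimal hMc hMinv hMmin hhM, q, hq0, fun y hy => ?_⟩
  exact hle.trans (hlow h hhM y hy)

end Pool.Agent.TH314.CSD
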